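import Pool.Agent.NbrSum.Defs

/-!
# Closed neighbourhood sums of `k C_t` for `3 ∣ t` and odd `k`
-/

namespace Pool.Agent.NbrSum

open Finset

/-! ## The combinatorial core -/

section core

variable {L : ℕ} [NeZero L]

lemma pick_sum (A e e' : ZMod L → ℤ) (h : ∀ l, A (l + 1) - A l = e' l - e l) (R : ℤ)
    (hR : ∑ l, e' l = R) (q : ZMod L) (m : ℕ) (hm : m ≤ L) :
    A (q + m) - A q = R - ∑ l, (if (l - q).val < m then e l else e' l) := by
  induction m with
  | zero => simp [hR]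
  | succ m ih =>
    have ih := ih (by omega)
    have hstep := h (q + m)
    have hsum : ∑ l, (if (l - q).val < m + 1 then e l else e' l)
        = ∑ l, (if (l - q).val < m then e l else e' l) + (e (q + m) - e' (q + m)) := by
      have key : ∀ l : ZMod L, (if (l - q).val < m + 1 then e l else e' l)
          = (if (l - q).val < m then e l else e' l)
            + (if l = q + (m : ZMod L) then e l - e' l else 0) := by
        intro l
        have hiff : l = q + (m : ZMod L) ↔ (l - q).val = m := by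
          constructor
          · rintro rfl
            rw [add_sub_cancel_left]
            exact ZMod.val_natCast_of_lt (by omega)
          · intro h
            have h2 : ((l - q).val : ZMod L) = l - q := ZMod.natCast_zmod_val _
            rw [h] at h2
            rw [h2]; ring
        by_cases h1 : (l - q).val < m
        · have h3 : l ≠ q + (m : ZMod L) := by
            rw [Ne, hiff]; omega
          rw [if_pos (by omega), if_pos h1, if_neg h3]; ring
        · by_cases h2 : (l - q).val = m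
          · have h3 : l = q + (m : ZMod L) := hiff.2 h2
            rw [if_pos (by omega), if_neg h1, if_pos h3]; ring
          · have h3 : l ≠ q + (m : ZMod L) := fun h => h2 (hiff.1 h)
            rw [if_neg (by omega), if_neg h1, if_neg h3]; ring
      rw [Finset.sum_congr rfl (fun l _ => key l), Finset.sum_add_distrib,
        Finset.sum_ite_eq']
      simp
    have hcast : (q + ((m + 1 : ℕ) : ZMod L)) = (q + m) + 1 := by push_cast; ring
    rw [hcast, hsum]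
    linarith

lemma exists_pick (A e e' : ZMod L → ℤ) (hA : Function.Injective A)
    (h : ∀ l, A (l + 1) - A l = e' l - e l) (R : ℤ) (hR : ∑ l, e' l = R) :
    ∃ (q : ZMod L) (m : ℕ), m < L ∧
      ∑ l, (if (l - q).val < m then e l else e' l) ≤ R - ((L : ℤ) - 1) := by
  obtain ⟨q, hq⟩ := Finite.exists_min A
  obtain ⟨p, hp⟩ := Finite.exists_max A
  refine ⟨q, (p - q).val, ZMod.val_lt _, ?_⟩
  have h1 := pick_sum A e e' h R hR q (p - q).val (ZMod.val_lt _).le
  rw [ZMod.natCast_zmod_val, add_sub_cancel] at h1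
  have h2 : (Finset.univ.image A).card = L := by
    rw [Finset.card_image_of_injective _ hA, Finset.card_univ, ZMod.card]
  have h3 : Finset.univ.image A ⊆ Finset.Icc (A q) (A p) := by
    intro x hx
    rw [Finset.mem_image] at hx
    obtain ⟨l, -, rfl⟩ := hx
    exact Finset.mem_Icc.2 ⟨hq l, hp l⟩
  have h4 := Finset.card_le_card h3
  rw [h2, Int.card_Icc] at h4
  have h5 : A q ≤ A p := hq p
  have h6 : ((A p + 1 - A q).toNat : ℤ) = A p + 1 - A q := Int.toNat_of_nonneg (by omega)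
  omega

lemma one_bad (g : ZMod L → ℤ) (hg : ∀ l, 0 ≤ g l) (hs : ∑ l, g l ≤ 1) :
    ∃ x, ∀ l, l ≠ x → g l = 0 := by
  by_cases hall : ∀ l, g l = 0
  · exact ⟨0, fun l _ => hall l⟩
  · push Not at hall
    obtain ⟨x, hx⟩ := hall
    refine ⟨x, fun l hl => ?_⟩
    have h1 : ∑ i ∈ ({x, l} : Finset (ZMod L)), g i ≤ ∑ i, g i :=
      Finset.sum_le_sum_of_subset_of_nonneg (Finset.subset_univ _) (fun i _ _ => hg i)
    rw [Finset.sum_pair hl.symm] at h1
    have := hg x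
    have := hg l
    omega

lemma change (q l : ZMod L) (m : ℕ)
    (h : ¬ ((l - q).val < m ↔ (l + 1 - q).val < m)) : l = q - 1 ∨ l = q + m - 1 := by
  have hL : 0 < L := Nat.pos_of_ne_zero (NeZero.ne L)
  have hv : (l - q).val < L := ZMod.val_lt _
  have e1 : (((l - q).val + 1 : ℕ) : ZMod L) = l + 1 - q := by
    push_cast
    rw [ZMod.natCast_zmod_val]; ring
  rcases Nat.lt_or_ge ((l - q).val + 1) L with h1 | h1
  · have e2 : (l + 1 - q).val = (l - q).val + 1 := by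
      rw [← e1]; exact ZMod.val_natCast_of_lt h1
    rw [e2] at h
    have h3 : (l - q).val + 1 = m := by
      by_contra hne
      apply h
      constructor <;> intro _ <;> omega
    right
    rw [h3] at e1
    have : l = (m : ZMod L) + q - 1 := by rw [e1]; ring
    rw [this]; ring
  · have h2 : (l - q).val + 1 = L := by omega
    left
    rw [h2, ZMod.natCast_self] at e1
    have : l = q - 1 := by
      have : l + 1 - q = 0 := e1.symm
      linear_combination this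
    exact this

/-- a cyclic block of `3L` pairwise different integers (as three classes), all of whose sums of
three cyclically consecutive terms are at least `b`. -/
structure Comp (L : ℕ) [NeZero L] (A B C : ZMod L → ℤ) (b : ℤ) : Prop where
  injA : Function.Injective A
  injB : Function.Injective B
  injC : Function.Injective C
  s0 : ∀ l, b ≤ A l + B l + C l
  s1 : ∀ l, b ≤ B l + C l + A (l + 1)
  s2 : ∀ l, b ≤ C l + A (l + 1) + B (l + 1)

lemma sum_shift (g : ZMod L → ℤ) : ∑ l, g (l + 1) = ∑ l, g l :=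
  Equiv.sum_comp (Equiv.addRight (1 : ZMod L)) g

variable {A B C : ZMod L → ℤ} {b : ℤ}

lemma Comp.range (h : Comp L A B C b) :
    (L : ℤ) - 1 ≤ ∑ l, A l + ∑ l, B l + ∑ l, C l - L * b := by
  have hR : ∑ l, (B l + C l + A (l + 1) - b) = ∑ l, A l + ∑ l, B l + ∑ l, C l - L * b := by
    rw [Finset.sum_sub_distrib, Finset.sum_add_distrib, Finset.sum_add_distrib, sum_shift]
    simp [ZMod.card]
    ring
  obtain ⟨q, m, -, hs⟩ := exists_pick A (fun l => A l + B l + C l - b)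
    (fun l => B l + C l + A (l + 1) - b) h.injA (fun l => by ring) _ hR
  have hnn : 0 ≤ ∑ l, (if (l - q).val < m then A l + B l + C l - b
      else B l + C l + A (l + 1) - b) := by
    apply Finset.sum_nonneg
    intro l _
    split_ifs
    · have := h.s0 l; omega
    · have := h.s1 l; omega
  linarith

lemma Comp.range' (h : Comp L A B C b) (hL : 7 ≤ L) :
    (L : ℤ) + 1 ≤ ∑ l, A l + ∑ l, B l + ∑ l, C l - L * b := by
  by_contra hcon
  push Not at hcon
  set e0 : ZMod L → ℤ := fun l => A l + B l + C l - b with he0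
  set e1 : ZMod L → ℤ := fun l => B l + C l + A (l + 1) - b with he1
  set e2 : ZMod L → ℤ := fun l => C l + A (l + 1) + B (l + 1) - b with he2
  have n0 : ∀ l, 0 ≤ e0 l := fun l => by have := h.s0 l; simp only [he0]; omega
  have n1 : ∀ l, 0 ≤ e1 l := fun l => by have := h.s1 l; simp only [he1]; omega
  have n2 : ∀ l, 0 ≤ e2 l := fun l => by have := h.s2 l; simp only [he2]; omega
  set R := ∑ l, A l + ∑ l, B l + ∑ l, C l - L * b with hRdef
  have hR1 : ∑ l, e1 l = R := by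
    simp only [he1]
    rw [Finset.sum_sub_distrib, Finset.sum_add_distrib, Finset.sum_add_distrib, sum_shift]
    simp [ZMod.card, hRdef]
    ring
  have hR2 : ∑ l, e2 l = R := by
    simp only [he2]
    rw [Finset.sum_sub_distrib, Finset.sum_add_distrib, Finset.sum_add_distrib, sum_shift A,
      sum_shift B]
    simp [ZMod.card, hRdef]
    ring
  have hR0 : ∑ l, e0 (l + 1) = R := by
    rw [sum_shift e0]
    simp only [he0]
    rw [Finset.sum_sub_distrib, Finset.sum_add_distrib, Finset.sum_add_distrib]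
    simp [ZMod.card, hRdef]
  have one_ne : (1 : ZMod L) ≠ 0 := by
    have : Fact (1 < L) := ⟨by omega⟩
    exact one_ne_zero
  have hne : ∀ (F : ZMod L → ℤ), Function.Injective F → ∀ l, F (l + 1) ≠ F l := by
    intro F hF l heq
    exact one_ne (by simpa using hF heq)
  have d01 : ∀ l, e0 l ≠ e1 l := fun l hh => hne A h.injA l (by
    simp only [he0, he1] at hh; omega)
  have d12 : ∀ l, e1 l ≠ e2 l := fun l hh => hne B h.injB l (by
    simp only [he1, he2] at hh; omega)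
  have d20 : ∀ l, e2 l ≠ e0 (l + 1) := fun l hh => hne C h.injC l (by
    simp only [he0, he2] at hh; omega)
  obtain ⟨q0, m0, hm0, hs0⟩ := exists_pick A e0 e1 h.injA (fun l => by
    simp only [he0, he1]; ring) R hR1
  obtain ⟨q1, m1, hm1, hs1⟩ := exists_pick B e1 e2 h.injB (fun l => by
    simp only [he1, he2]; ring) R hR2
  obtain ⟨q2, m2, hm2, hs2⟩ := exists_pick C e2 (fun l => e0 (l + 1)) h.injC (fun l => by
    simp only [he0, he2]; ring) R hR0
  obtain ⟨x0, hx0⟩ := one_bad (fun l => if (l - q0).val < m0 then e0 l else e1 l)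
    (fun l => by split_ifs; exacts [n0 l, n1 l]) (by omega)
  obtain ⟨x1, hx1⟩ := one_bad (fun l => if (l - q1).val < m1 then e1 l else e2 l)
    (fun l => by split_ifs; exacts [n1 l, n2 l]) (by omega)
  obtain ⟨x2, hx2⟩ := one_bad (fun l => if (l - q2).val < m2 then e2 l else e0 (l + 1))
    (fun l => by split_ifs; exacts [n2 l, n0 (l + 1)]) (by omega)
  have hall : ∀ l : ZMod L, l ∈ ({x0, x1, x2, x0 - 1, q0 - 1, q0 + m0 - 1} : Finset (ZMod L)) := by
    intro l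
    by_contra hl
    simp only [Finset.mem_insert, Finset.mem_singleton, not_or] at hl
    obtain ⟨l0, l1, l2, l3, l4, l5⟩ := hl
    have l3' : l + 1 ≠ x0 := fun hh => l3 (by rw [← hh]; ring)
    have a0 := hx0 l l0
    have a0' := hx0 (l + 1) l3'
    have a1 := hx1 l l1
    have a2 := hx2 l l2
    have c01 := d01 l
    have c12 := d12 l
    have c20 := d20 l
    have c01' := d01 (l + 1)
    have hch := change q0 l m0
    apply not_or.2 ⟨l4, l5⟩
    apply hch
    by_cases u0 : (l - q0).val < m0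
    · rw [if_pos u0] at a0
      have e1ne : e1 l ≠ 0 := fun hh => c01 (by rw [a0, hh])
      by_cases u1 : (l - q1).val < m1
      · rw [if_pos u1] at a1; exact absurd a1 e1ne
      · rw [if_neg u1] at a1
        have e0ne : e0 (l + 1) ≠ 0 := fun hh => c20 (by rw [a1, hh])
        by_cases u0' : (l + 1 - q0).val < m0
        · rw [if_pos u0'] at a0'; exact absurd a0' e0ne
        · intro hiff; exact u0' (hiff.1 u0)
    · rw [if_neg u0] at a0
      have e2ne : e2 l ≠ 0 := fun hh => c12 (by rw [a0, hh])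
      by_cases u2 : (l - q2).val < m2
      · rw [if_pos u2] at a2; exact absurd a2 e2ne
      · rw [if_neg u2] at a2
        have e1ne : e1 (l + 1) ≠ 0 := fun hh => c01' (by rw [a2, hh])
        by_cases u0' : (l + 1 - q0).val < m0
        · intro hiff; exact u0 (hiff.2 u0')
        · rw [if_neg u0'] at a0'; exact absurd a0' e1ne
  have hcard : (Finset.univ : Finset (ZMod L)).card ≤ 6 := by
    calc (Finset.univ : Finset (ZMod L)).card
        ≤ ({x0, x1, x2, x0 - 1, q0 - 1, q0 + m0 - 1} : Finset (ZMod L)).card :=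
          Finset.card_le_card (fun l _ => hall l)
      _ ≤ 6 := Finset.card_le_six
  rw [Finset.card_univ, ZMod.card] at hcard
  omega

end core


/-! ## One component -/

lemma sum_zmod (L : ℕ) [NeZero L] (H : ℕ → ℤ) : ∑ l : ZMod L, H l.val = ∑ i ∈ range L, H i := by
  cases L with
  | zero => exact absurd rfl (NeZero.ne 0)
  | succ n => exact Fin.sum_univ_eq_sum_range H (n + 1)

lemma sum_three (L : ℕ) (G : ℕ → ℤ) :
    ∑ x ∈ range (3 * L), G x
      = ∑ l ∈ range L, G (3 * l) + ∑ l ∈ range L, G (3 * l + 1) + ∑ l ∈ range L, G (3 * l + 2) := by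
  induction L with
  | zero => simp
  | succ n ih =>
    rw [show 3 * (n + 1) = 3 * n + 1 + 1 + 1 by ring, Finset.sum_range_succ,
      Finset.sum_range_succ, Finset.sum_range_succ, ih, Finset.sum_range_succ,
      Finset.sum_range_succ, Finset.sum_range_succ]
    ring

lemma comp_bound (L : ℕ) (hL1 : 1 ≤ L) (G : ℕ → ℤ) (b : ℤ)
    (inj : ∀ x < 3 * L, ∀ y < 3 * L, G x = G y → x = y)
    (hs : ∀ x, x + 2 < 3 * L → b ≤ G x + G (x + 1) + G (x + 2))
    (hw1 : b ≤ G (3 * L - 2) + G (3 * L - 1) + G 0)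
    (hw2 : b ≤ G (3 * L - 1) + G 0 + G 1) :
    (L : ℤ) - 1 ≤ ∑ x ∈ range (3 * L), G x - L * b ∧
      (7 ≤ L → (L : ℤ) + 1 ≤ ∑ x ∈ range (3 * L), G x - L * b) := by
  have : NeZero L := ⟨by omega⟩
  have hval : ∀ l : ZMod L, l.val < L := fun l => ZMod.val_lt l
  have hsucc : ∀ l : ZMod L, (l.val + 1 < L ∧ (l + 1).val = l.val + 1) ∨
      (l.val + 1 = L ∧ (l + 1).val = 0) := by
    intro l
    have e1 : ((l.val + 1 : ℕ) : ZMod L) = l + 1 := by
      push_cast; rw [ZMod.natCast_zmod_val]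
    rcases Nat.lt_or_ge (l.val + 1) L with h1 | h1
    · left; exact ⟨h1, by rw [← e1]; exact ZMod.val_natCast_of_lt h1⟩
    · right
      have h2 : l.val + 1 = L := by have := hval l; omega
      refine ⟨h2, ?_⟩
      rw [← e1, h2, ZMod.natCast_self, ZMod.val_zero]
  have hc : Comp L (fun l => G (3 * l.val)) (fun l => G (3 * l.val + 1))
      (fun l => G (3 * l.val + 2)) b := by
    constructor
    · intro l l' h
      have := inj _ (by have := hval l; omega) _ (by have := hval l'; omega) h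
      exact ZMod.val_injective L (by omega)
    · intro l l' h
      have := inj _ (by have := hval l; omega) _ (by have := hval l'; omega) h
      exact ZMod.val_injective L (by omega)
    · intro l l' h
      have := inj _ (by have := hval l; omega) _ (by have := hval l'; omega) h
      exact ZMod.val_injective L (by omega)
    · intro l
      exact hs _ (by have := hval l; omega)
    · intro l
      rcases hsucc l with ⟨h1, h2⟩ | ⟨h1, h2⟩
      · have h3 := hs (3 * l.val + 1) (by omega)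
        simp only [h2]
        exact h3
      · simp only [h2]
        have e1 : 3 * L - 2 = 3 * l.val + 1 := by omega
        have e2 : 3 * L - 1 = 3 * l.val + 2 := by omega
        rw [e1, e2] at hw1
        simpa using hw1
    · intro l
      rcases hsucc l with ⟨h1, h2⟩ | ⟨h1, h2⟩
      · have h3 := hs (3 * l.val + 2) (by omega)
        simp only [h2]
        exact h3
      · simp only [h2]
        have e2 : 3 * L - 1 = 3 * l.val + 2 := by omega
        rw [e2] at hw2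
        simpa using hw2
  have h1 := hc.range
  have h2 := hc.range'
  rw [sum_zmod L (fun i => G (3 * i)), sum_zmod L (fun i => G (3 * i + 1)),
    sum_zmod L (fun i => G (3 * i + 2)), ← sum_three] at h1 h2
  exact ⟨h1, h2⟩

/-! ## Graphs and labelings -/

def nxt {t : ℕ} (a b : Fin t) : Prop :=
  (b : ℕ) = (a : ℕ) + 1 ∨ ((a : ℕ) + 1 = t ∧ (b : ℕ) = 0)

lemma cns_eq {k : ℕ} (len : Fin k → ℕ) (f : (Σ j : Fin k, Fin (len j)) → ℕ) (j : Fin k)
    (h3 : 3 ≤ len j) (p i q : Fin (len j)) (hpi : nxt p i) (hiq : nxt i q) :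
    cns (cycles len) f ⟨j, i⟩ = f ⟨j, p⟩ + f ⟨j, i⟩ + f ⟨j, q⟩ := by
  have hmem : ∀ u : (Σ j : Fin k, Fin (len j)), (u = (⟨j, i⟩ : Σ j : Fin k, Fin (len j)) ∨
      (cycles len).Adj ⟨j, i⟩ u) ↔ u ∈ ({⟨j, p⟩, ⟨j, i⟩, ⟨j, q⟩} : Finset _) := by
    rintro ⟨j', x⟩
    simp only [Finset.mem_insert, Finset.mem_singleton, cycles, SimpleGraph.fromRel_adj]
    rcases eq_or_ne j' j with rfl | hj
    · simp only [Sigma.mk.injEq, true_and, heq_eq_eq, ne_eq, Fin.ext_iff]
      unfold nxt at hpi hiq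
      have := x.2
      have := p.2
      have := q.2
      have := i.2
      omega
    · simp [Sigma.mk.injEq, hj, hj.symm]
  have hsum : cns (cycles len) f ⟨j, i⟩
      = ∑ u ∈ ({⟨j, p⟩, ⟨j, i⟩, ⟨j, q⟩} : Finset (Σ j : Fin k, Fin (len j))), f u := by
    unfold cns
    apply Finset.sum_congr _ (fun _ _ => rfl)
    ext u
    simp only [Finset.mem_filter, Finset.mem_univ, true_and]
    exact hmem u
  rw [hsum]
  unfold nxt at hpi hiq
  have h1 := p.2
  have h2 := q.2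
  have h4 := i.2
  have n1 : (⟨j, p⟩ : Σ j : Fin k, Fin (len j)) ∉ ({⟨j, i⟩, ⟨j, q⟩} : Finset _) := by
    simp only [Finset.mem_insert, Finset.mem_singleton, Sigma.mk.injEq, true_and, heq_eq_eq,
      Fin.ext_iff]
    omega
  have n2 : (⟨j, i⟩ : Σ j : Fin k, Fin (len j)) ∉ ({⟨j, q⟩} : Finset _) := by
    simp only [Finset.mem_singleton, Sigma.mk.injEq, true_and, heq_eq_eq, Fin.ext_iff]
    omega
  rw [Finset.sum_insert n1, Finset.sum_insert n2, Finset.sum_singleton]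
  ring

lemma gauss (n : ℕ) : 2 * ∑ i ∈ Finset.Icc 1 n, i = n * (n + 1) := by
  induction n with
  | zero => simp
  | succ n ih => rw [Finset.sum_Icc_succ_top (by omega), mul_add, ih]; ring

lemma sum_labeling {V : Type*} [Fintype V] (f : V → ℕ) (hf : IsLabeling f) :
    2 * ∑ v, f v = Fintype.card V * (Fintype.card V + 1) := by
  classical
  rw [← gauss]
  congr 1
  have him : Finset.univ.image f = Finset.Icc 1 (Fintype.card V) := by
    ext x
    simp only [Finset.mem_image, Finset.mem_univ, true_and, Finset.mem_Icc]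
    have h := hf.image_eq
    have : x ∈ f '' Set.univ ↔ x ∈ Set.Icc 1 (Fintype.card V) := by rw [h]
    simpa using this
  rw [← him, Finset.sum_image]
  intro a _ b _ hab
  exact hf.injOn (Set.mem_univ _) (Set.mem_univ _) hab


/-! ## Sawtooth sequences -/

structure Good (L d : ℕ) (wA wB wC : ℕ → ℕ) : Prop where
  ltA : ∀ l < L, wA l < L
  ltB : ∀ l < L, wB l < L
  ltC : ∀ l < L, wC l < L
  injA : ∀ l < L, ∀ l' < L, wA l = wA l' → l = l'
  injB : ∀ l < L, ∀ l' < L, wB l = wB l' → l = l'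
  injC : ∀ l < L, ∀ l' < L, wC l = wC l' → l = l'
  s0 : ∀ l < L, 3 * L ≤ 2 * (wA l + wB l + wC l) + d + 3 ∧
    2 * (wA l + wB l + wC l) + 3 ≤ 3 * L + d
  s1 : ∀ l < L, ∀ l', (l' = l + 1 ∧ l + 1 < L ∨ l + 1 = L ∧ l' = 0) →
    3 * L ≤ 2 * (wB l + wC l + wA l') + d + 3 ∧ 2 * (wB l + wC l + wA l') + 3 ≤ 3 * L + d
  s2 : ∀ l < L, ∀ l', (l' = l + 1 ∧ l + 1 < L ∨ l + 1 = L ∧ l' = 0) →
    3 * L ≤ 2 * (wC l + wA l' + wB l') + d + 3 ∧ 2 * (wC l + wA l' + wB l') + 3 ≤ 3 * L + d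

def saw0 (L i : ℕ) : ℕ := if i < 2 * L / 3 then i + i / 2 + 1 else 3 * (L - 1 - i)
def saw1 (L i : ℕ) : ℕ := if i < 2 * L / 3 then i + (i + 1) / 2 else 3 * (L - 1 - i) + 1
def saw2 (L i : ℕ) : ℕ := if i < 2 * L / 3 then i + i / 2 else 3 * (L - 1 - i) + 2
def rotl (L p i : ℕ) : ℕ := if i + p < L then i + p else i + p - L

lemma saw0_spec (L i : ℕ) : (i < 2 * L / 3 ∧ saw0 L i = i + i / 2 + 1) ∨
    (2 * L / 3 ≤ i ∧ saw0 L i = 3 * (L - 1 - i)) := by
  unfold saw0; split_ifs with h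
  · left; exact ⟨h, rfl⟩
  · right; exact ⟨by omega, rfl⟩
lemma saw1_spec (L i : ℕ) : (i < 2 * L / 3 ∧ saw1 L i = i + (i + 1) / 2) ∨
    (2 * L / 3 ≤ i ∧ saw1 L i = 3 * (L - 1 - i) + 1) := by
  unfold saw1; split_ifs with h
  · left; exact ⟨h, rfl⟩
  · right; exact ⟨by omega, rfl⟩
lemma saw2_spec (L i : ℕ) : (i < 2 * L / 3 ∧ saw2 L i = i + i / 2) ∨
    (2 * L / 3 ≤ i ∧ saw2 L i = 3 * (L - 1 - i) + 2) := by
  unfold saw2; split_ifs with h
  · left; exact ⟨h, rfl⟩
  · right; exact ⟨by omega, rfl⟩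
lemma rotl_spec (L p i : ℕ) : (i + p < L ∧ rotl L p i = i + p) ∨
    (L ≤ i + p ∧ rotl L p i = i + p - L) := by
  unfold rotl; split_ifs with h
  · left; exact ⟨h, rfl⟩
  · right; exact ⟨by omega, rfl⟩

lemma good0 (a : ℕ) (ha : 2 ≤ a) (d : ℕ) (hd : d = 3 ∧ a % 2 = 0 ∨ d = 4 ∧ a % 2 = 1) :
    Good (3 * a) d (saw0 (3 * a)) (fun i => saw2 (3 * a) (rotl (3 * a) (a + 1) i))
      (fun i => saw1 (3 * a) (rotl (3 * a) (2 * a + 1) i)) := by
  have hU : 2 * (3 * a) / 3 = 2 * a := by omega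
  constructor
  · intro l hl; simp only [saw0, hU]; split_ifs <;> omega
  · intro l hl; simp only [saw2, rotl, hU]; split_ifs <;> omega
  · intro l hl; simp only [saw1, rotl, hU]; split_ifs <;> omega
  · intro l hl l' hl'; simp only [saw0, hU]; split_ifs <;> omega
  · intro l hl l' hl'; simp only [saw2, rotl, hU]; split_ifs <;> omega
  · intro l hl l' hl'; simp only [saw1, rotl, hU]; split_ifs <;> omega
  · intro l hl
    rcases rotl_spec (3 * a) (a + 1) l with ⟨h1, e1⟩ | ⟨h1, e1⟩ <;> rw [e1] <;>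
    rcases rotl_spec (3 * a) (2 * a + 1) l with ⟨h2, e2⟩ | ⟨h2, e2⟩ <;> rw [e2] <;>
    simp only [saw0, saw1, saw2, hU] <;> split_ifs <;> omega
  · intro l hl l' hl'
    rcases rotl_spec (3 * a) (a + 1) l with ⟨h1, e1⟩ | ⟨h1, e1⟩ <;> rw [e1] <;>
    rcases rotl_spec (3 * a) (2 * a + 1) l with ⟨h2, e2⟩ | ⟨h2, e2⟩ <;> rw [e2] <;>
    rcases hl' with ⟨rfl, h3⟩ | ⟨h3, rfl⟩ <;> try (exfalso; omega)
    all_goals simp only [saw0, saw1, saw2, hU] <;> split_ifs <;> omega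
  · intro l hl l' hl'
    rcases rotl_spec (3 * a) (a + 1) l' with ⟨h1, e1⟩ | ⟨h1, e1⟩ <;> rw [e1] <;>
    rcases rotl_spec (3 * a) (2 * a + 1) l with ⟨h2, e2⟩ | ⟨h2, e2⟩ <;> rw [e2] <;>
    rcases hl' with ⟨rfl, h3⟩ | ⟨h3, rfl⟩ <;> try (exfalso; omega)
    all_goals simp only [saw0, saw1, saw2, hU] <;> split_ifs <;> omega

lemma good1 (a : ℕ) (ha : 1 ≤ a) (d : ℕ) (hd : d = 3 ∧ a % 2 = 1 ∨ d = 4 ∧ a % 2 = 0) :
    Good (3 * a + 1) d (saw0 (3 * a + 1))
      (fun i => saw0 (3 * a + 1) (rotl (3 * a + 1) (2 * a + 1) i))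
      (fun i => saw0 (3 * a + 1) (rotl (3 * a + 1) (a + 1) i)) := by
  have hU : 2 * (3 * a + 1) / 3 = 2 * a := by omega
  constructor
  · intro l hl; simp only [saw0, hU]; split_ifs <;> omega
  · intro l hl; simp only [saw0, rotl, hU]; split_ifs <;> omega
  · intro l hl; simp only [saw0, rotl, hU]; split_ifs <;> omega
  · intro l hl l' hl'; simp only [saw0, hU]; split_ifs <;> omega
  · intro l hl l' hl'; simp only [saw0, rotl, hU]; split_ifs <;> omega
  · intro l hl l' hl'; simp only [saw0, rotl, hU]; split_ifs <;> omega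
  · intro l hl
    rcases rotl_spec (3 * a + 1) (2 * a + 1) l with ⟨h1, e1⟩ | ⟨h1, e1⟩ <;> rw [e1] <;>
    rcases rotl_spec (3 * a + 1) (a + 1) l with ⟨h2, e2⟩ | ⟨h2, e2⟩ <;> rw [e2] <;>
    simp only [saw0, hU] <;> split_ifs <;> omega
  · intro l hl l' hl'
    rcases rotl_spec (3 * a + 1) (2 * a + 1) l with ⟨h1, e1⟩ | ⟨h1, e1⟩ <;> rw [e1] <;>
    rcases rotl_spec (3 * a + 1) (a + 1) l with ⟨h2, e2⟩ | ⟨h2, e2⟩ <;> rw [e2] <;>
    rcases hl' with ⟨rfl, h3⟩ | ⟨h3, rfl⟩ <;> try (exfalso; omega)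
    all_goals simp only [saw0, hU] <;> split_ifs <;> omega
  · intro l hl l' hl'
    rcases rotl_spec (3 * a + 1) (2 * a + 1) l' with ⟨h1, e1⟩ | ⟨h1, e1⟩ <;> rw [e1] <;>
    rcases rotl_spec (3 * a + 1) (a + 1) l with ⟨h2, e2⟩ | ⟨h2, e2⟩ <;> rw [e2] <;>
    rcases hl' with ⟨rfl, h3⟩ | ⟨h3, rfl⟩ <;> try (exfalso; omega)
    all_goals simp only [saw0, hU] <;> split_ifs <;> omega

lemma good2 (a : ℕ) (ha : 1 ≤ a) (d : ℕ) (hd : d = 3 ∧ a % 2 = 0 ∨ d = 4 ∧ a % 2 = 1) :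
    Good (3 * a + 2) d (saw0 (3 * a + 2))
      (fun i => saw0 (3 * a + 2) (rotl (3 * a + 2) (a + 1) i))
      (fun i => saw0 (3 * a + 2) (rotl (3 * a + 2) (2 * a + 2) i)) := by
  have hU : 2 * (3 * a + 2) / 3 = 2 * a + 1 := by omega
  constructor
  · intro l hl; simp only [saw0, hU]; split_ifs <;> omega
  · intro l hl; simp only [saw0, rotl, hU]; split_ifs <;> omega
  · intro l hl; simp only [saw0, rotl, hU]; split_ifs <;> omega
  · intro l hl l' hl'; simp only [saw0, hU]; split_ifs <;> omega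
  · intro l hl l' hl'; simp only [saw0, rotl, hU]; split_ifs <;> omega
  · intro l hl l' hl'; simp only [saw0, rotl, hU]; split_ifs <;> omega
  · intro l hl
    rcases rotl_spec (3 * a + 2) (a + 1) l with ⟨h1, e1⟩ | ⟨h1, e1⟩ <;> rw [e1] <;>
    rcases rotl_spec (3 * a + 2) (2 * a + 2) l with ⟨h2, e2⟩ | ⟨h2, e2⟩ <;> rw [e2] <;>
    simp only [saw0, hU] <;> split_ifs <;> omega
  · intro l hl l' hl'
    rcases rotl_spec (3 * a + 2) (a + 1) l with ⟨h1, e1⟩ | ⟨h1, e1⟩ <;> rw [e1] <;>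
    rcases rotl_spec (3 * a + 2) (2 * a + 2) l with ⟨h2, e2⟩ | ⟨h2, e2⟩ <;> rw [e2] <;>
    rcases hl' with ⟨rfl, h3⟩ | ⟨h3, rfl⟩ <;> try (exfalso; omega)
    all_goals simp only [saw0, hU] <;> split_ifs <;> omega
  · intro l hl l' hl'
    rcases rotl_spec (3 * a + 2) (a + 1) l' with ⟨h1, e1⟩ | ⟨h1, e1⟩ <;> rw [e1] <;>
    rcases rotl_spec (3 * a + 2) (2 * a + 2) l with ⟨h2, e2⟩ | ⟨h2, e2⟩ <;> rw [e2] <;>
    rcases hl' with ⟨rfl, h3⟩ | ⟨h3, rfl⟩ <;> try (exfalso; omega)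
    all_goals simp only [saw0, hU] <;> split_ifs <;> omega

lemma goodS1 : Good 1 0 (fun _ => 0) (fun _ => 0) (fun _ => 0) := by
  constructor <;> intros <;> omega

lemma goodS2 : Good 2 1 (fun i => i) (fun i => 1 - i) (fun i => i) := by
  constructor <;> intros <;> omega

lemma goodS3 : Good 3 2 (fun i => 2 - i) (fun i => i) (fun i => [1, 2, 0].getD i 0) := by
  constructor
  · decide
  · decide
  · decide
  · decide
  · decide
  · decide
  · decide
  · intro l hl l' hl'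
    interval_cases l <;> rcases hl' with ⟨rfl, h⟩ | ⟨h, rfl⟩ <;> first | decide | omega
  · intro l hl l' hl'
    interval_cases l <;> rcases hl' with ⟨rfl, h⟩ | ⟨h, rfl⟩ <;> first | decide | omega

lemma goodS5 : Good 5 2 (fun i => [4, 2, 0, 1, 3].getD i 0) (fun i => [0, 1, 3, 4, 2].getD i 0)
    (fun i => [3, 4, 2, 0, 1].getD i 0) := by
  constructor
  · decide
  · decide
  · decide
  · decide
  · decide
  · decide
  · decide
  · intro l hl l' hl'
    interval_cases l <;> rcases hl' with ⟨rfl, h⟩ | ⟨h, rfl⟩ <;> first | decide | omega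
  · intro l hl l' hl'
    interval_cases l <;> rcases hl' with ⟨rfl, h⟩ | ⟨h, rfl⟩ <;> first | decide | omega

lemma exists_good (L : ℕ) (hL : 1 ≤ L) : ∃ wA wB wC : ℕ → ℕ, Good L (gap L) wA wB wC := by
  by_cases h1 : L = 1
  · subst h1; exact ⟨_, _, _, goodS1⟩
  by_cases h2 : L = 2
  · subst h2; exact ⟨_, _, _, goodS2⟩
  by_cases h3 : L = 3
  · subst h3; exact ⟨_, _, _, goodS3⟩
  by_cases h5 : L = 5
  · subst h5; exact ⟨_, _, _, goodS5⟩
  have hg : gap L = if L % 2 = 0 then 3 else 4 := by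
    unfold gap
    rw [if_neg h1, if_neg h2, if_neg (by omega)]
  have hg' : gap L = 3 ∧ L % 2 = 0 ∨ gap L = 4 ∧ L % 2 = 1 := by
    rw [hg]; split_ifs <;> omega
  obtain ⟨a, ha⟩ : ∃ a, L = 3 * a ∨ L = 3 * a + 1 ∨ L = 3 * a + 2 := ⟨L / 3, by omega⟩
  rcases ha with rfl | rfl | rfl
  · exact ⟨_, _, _, good0 a (by omega) _ (by omega)⟩
  · exact ⟨_, _, _, good1 a (by omega) _ (by omega)⟩
  · exact ⟨_, _, _, good2 a (by omega) _ (by omega)⟩

/-- one of the two cycles in a pair of cycles sharing a block of `2L` consecutive labels -/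
structure Half (L d : ℕ) (wA wB wC : ℕ → ℕ) : Prop where
  ltA : ∀ l < L, wA l < L
  ltB : ∀ l < L, wB l < L
  ltC : ∀ l < L, wC l < 2 * L
  injA : ∀ l < L, ∀ l' < L, wA l = wA l' → l = l'
  injB : ∀ l < L, ∀ l' < L, wB l = wB l' → l = l'
  injC : ∀ l < L, ∀ l' < L, wC l = wC l' → l = l'
  s0 : ∀ l < L, 4 * L ≤ 2 * (wA l + wB l + wC l) + d + 3 ∧
    2 * (wA l + wB l + wC l) + 3 ≤ 4 * L + d
  s1 : ∀ l < L, ∀ l', (l' = l + 1 ∧ l + 1 < L ∨ l + 1 = L ∧ l' = 0) →
    4 * L ≤ 2 * (wB l + wC l + wA l') + d + 3 ∧ 2 * (wB l + wC l + wA l') + 3 ≤ 4 * L + d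
  s2 : ∀ l < L, ∀ l', (l' = l + 1 ∧ l + 1 < L ∨ l + 1 = L ∧ l' = 0) →
    4 * L ≤ 2 * (wC l + wA l' + wB l') + d + 3 ∧ 2 * (wC l + wA l' + wB l') + 3 ≤ 4 * L + d

def eo (L j : ℕ) : ℕ := if 2 * j < L then 2 * j else 2 * L - 1 - 2 * j
def eo' (L j : ℕ) : ℕ := if j = 0 then 1 else if 2 * (j - 1) < L then 2 * (j - 1) else
  2 * L - 1 - 2 * (j - 1)
def c1 (L j : ℕ) : ℕ := if j = 0 then 2 * L - 2 else if 4 * j ≤ 2 * L - 1 then 2 * L - 1 - 4 * j
  else 4 * j - (2 * L - 1)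
def c2 (L j : ℕ) : ℕ := if j = L - 1 then 2 * L - 1 else if 4 * j ≤ 2 * L - 4 then
  2 * L - 4 - 4 * j else 4 * j - (2 * L - 2)

lemma half1 (L : ℕ) (hL : 3 ≤ L) : Half L 5 (eo L) (eo' L) (c1 L) := by
  constructor
  · intro l hl; simp only [eo]; split_ifs <;> first | contradiction | omega
  · intro l hl; simp only [eo']; split_ifs <;> first | contradiction | omega
  · intro l hl; simp only [c1]; split_ifs <;> first | contradiction | omega
  · intro l hl l' hl'; simp only [eo]; split_ifs <;> first | contradiction | omega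
  · intro l hl l' hl'; simp only [eo']; split_ifs <;> first | contradiction | omega
  · intro l hl l' hl'; simp only [c1]; split_ifs <;> first | contradiction | omega
  · intro l hl; simp only [eo, eo', c1]; split_ifs <;> first | contradiction | omega
  · intro l hl l' hl'
    rcases hl' with ⟨rfl, h3⟩ | ⟨h3, rfl⟩ <;> simp only [eo, eo', c1] <;> split_ifs <;> first | contradiction | omega
  · intro l hl l' hl'
    rcases hl' with ⟨rfl, h3⟩ | ⟨h3, rfl⟩ <;> simp only [eo, eo', c1] <;> split_ifs <;> first | contradiction | omega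

lemma half2 (L : ℕ) (hL : 3 ≤ L) : Half L 5 (eo L) (eo L) (c2 L) := by
  constructor
  · intro l hl; simp only [eo]; split_ifs <;> first | contradiction | omega
  · intro l hl; simp only [eo]; split_ifs <;> first | contradiction | omega
  · intro l hl; simp only [c2]; split_ifs <;> first | contradiction | omega
  · intro l hl l' hl'; simp only [eo]; split_ifs <;> first | contradiction | omega
  · intro l hl l' hl'; simp only [eo]; split_ifs <;> first | contradiction | omega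
  · intro l hl l' hl'; simp only [c2]; split_ifs <;> first | contradiction | omega
  · intro l hl; simp only [eo, c2]; split_ifs <;> first | contradiction | omega
  · intro l hl l' hl'
    rcases hl' with ⟨rfl, h3⟩ | ⟨h3, rfl⟩ <;> simp only [eo, c2] <;> split_ifs <;> first | contradiction | omega
  · intro l hl l' hl'
    rcases hl' with ⟨rfl, h3⟩ | ⟨h3, rfl⟩ <;> simp only [eo, c2] <;> split_ifs <;> first | contradiction | omega

lemma c1_ne_c2 (L : ℕ) (hL : 3 ≤ L) : ∀ l < L, ∀ l' < L, c1 L l ≠ c2 L l' := by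
  intro l hl l' hl'; simp only [c1, c2]; split_ifs <;> first | contradiction | omega

lemma halfS1 : Half 1 1 (fun _ => 0) (fun _ => 0) (fun _ => 0) := by
  constructor <;> intros <;> omega
lemma halfS1' : Half 1 1 (fun _ => 0) (fun _ => 0) (fun _ => 1) := by
  constructor <;> intros <;> omega
lemma halfS2 : Half 2 3 (fun i => i) (fun i => 1 - i) (fun i => i) := by
  constructor <;> intros <;> omega
lemma halfS2' : Half 2 3 (fun i => i) (fun i => 1 - i) (fun i => i + 2) := by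
  constructor <;> intros <;> omega

/-- upper bound for the spread for even `k` -/
def gapE (L : ℕ) : ℕ := if L = 1 then 1 else if L = 2 then 3 else 5

lemma exists_half (L : ℕ) (hL : 1 ≤ L) : ∃ A1 B1 C1 A2 B2 C2 : ℕ → ℕ,
    Half L (gapE L) A1 B1 C1 ∧ Half L (gapE L) A2 B2 C2 ∧ ∀ l < L, ∀ l' < L, C1 l ≠ C2 l' := by
  by_cases h1 : L = 1
  · subst h1; exact ⟨_, _, _, _, _, _, halfS1, halfS1', fun l _ l' _ => by omega⟩
  by_cases h2 : L = 2
  · subst h2; exact ⟨_, _, _, _, _, _, halfS2, halfS2', fun l _ l' _ => by omega⟩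
  have h3 : gapE L = 5 := by unfold gapE; rw [if_neg h1, if_neg h2]
  rw [h3]
  exact ⟨_, _, _, _, _, _, half1 L (by omega), half2 L (by omega), c1_ne_c2 L (by omega)⟩

lemma exists_nbrs {t : ℕ} (i : Fin t) : ∃ p q : Fin t, nxt p i ∧ nxt i q := by
  have hi := i.2
  unfold nxt
  rcases Nat.eq_zero_or_pos (i : ℕ) with h0 | h0
  · refine ⟨⟨t - 1, by omega⟩, ?_⟩
    rcases Nat.lt_or_ge ((i : ℕ) + 1) t with h1 | h1
    · exact ⟨⟨i + 1, h1⟩, Or.inr ⟨by simp; omega, h0⟩, Or.inl rfl⟩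
    · exact ⟨⟨0, by omega⟩, Or.inr ⟨by simp; omega, h0⟩, Or.inr ⟨by omega, rfl⟩⟩
  · refine ⟨⟨i - 1, by omega⟩, ?_⟩
    rcases Nat.lt_or_ge ((i : ℕ) + 1) t with h1 | h1
    · exact ⟨⟨i + 1, h1⟩, Or.inl (by simp; omega), Or.inl rfl⟩
    · exact ⟨⟨0, by omega⟩, Or.inl (by simp; omega), Or.inr ⟨by omega, rfl⟩⟩

/-! ## The lower bounds -/

lemma lower_core {k : ℕ} (L : Fin k → ℕ) (hL : ∀ j, 1 ≤ L j)
    (f : (Σ j : Fin k, Fin (3 * L j)) → ℕ) (hf : IsLabeling f) (b : ℤ)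
    (hb : ∀ v, b ≤ cns (cycles fun j => 3 * L j) f v) :
    2 * ∑ j, (if 7 ≤ L j then (L j : ℤ) + 1 else (L j : ℤ) - 1)
      ≤ (3 * ∑ j, (L j : ℤ)) * (3 * ∑ j, (L j : ℤ) + 1) - 2 * (∑ j, (L j : ℤ)) * b := by
  classical
  set G : Fin k → ℕ → ℤ := fun j x => if h : x < 3 * L j then (f ⟨j, ⟨x, h⟩⟩ : ℤ) else 0 with hG
  have hGv : ∀ j x (h : x < 3 * L j), G j x = (f ⟨j, ⟨x, h⟩⟩ : ℤ) := by
    intro j x h; simp only [hG, dif_pos h]
  have hsumG : ∀ (j : Fin k) (p i q : Fin (3 * L j)), nxt p i → nxt i q →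
      b ≤ G j p + G j i + G j q := by
    intro j p i q hpi hiq
    have h1 := hb ⟨j, i⟩
    rw [cns_eq (fun j => 3 * L j) f j (by have := hL j; omega) p i q hpi hiq] at h1
    rw [hGv j p p.2, hGv j i i.2, hGv j q q.2]
    push_cast at h1
    exact h1
  have hcomp : ∀ j, (if 7 ≤ L j then (L j : ℤ) + 1 else (L j : ℤ) - 1)
      ≤ ∑ x ∈ range (3 * L j), G j x - L j * b := by
    intro j
    have hj := hL j
    have h := comp_bound (L j) hj (G j) b ?_ ?_ ?_ ?_
    · split_ifs with h7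
      · exact h.2 h7
      · exact h.1
    · intro x hx y hy hxy
      rw [hGv j x hx, hGv j y hy] at hxy
      have h1 : f ⟨j, ⟨x, hx⟩⟩ = f ⟨j, ⟨y, hy⟩⟩ := by exact_mod_cast hxy
      have h2 := hf.injOn (Set.mem_univ _) (Set.mem_univ _) h1
      simpa using h2
    · intro x hx
      exact hsumG j ⟨x, by omega⟩ ⟨x + 1, by omega⟩ ⟨x + 2, hx⟩ (Or.inl rfl) (Or.inl rfl)
    · exact hsumG j ⟨3 * L j - 2, by omega⟩ ⟨3 * L j - 1, by omega⟩ ⟨0, by omega⟩
        (Or.inl (by simp; omega)) (Or.inr ⟨by simp; omega, rfl⟩)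
    · exact hsumG j ⟨3 * L j - 1, by omega⟩ ⟨0, by omega⟩ ⟨1, by omega⟩
        (Or.inr ⟨by simp; omega, rfl⟩) (Or.inl rfl)
  have htot : ∑ j, ∑ x ∈ range (3 * L j), G j x = ∑ v, (f v : ℤ) := by
    rw [Fintype.sum_sigma]
    apply Finset.sum_congr rfl
    intro j _
    rw [Finset.sum_range]
    apply Finset.sum_congr rfl
    intro i _
    rw [hGv j i i.2]
  have hcard : (Fintype.card (Σ j : Fin k, Fin (3 * L j)) : ℤ) = 3 * ∑ j, (L j : ℤ) := by
    rw [Fintype.card_sigma]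
    simp only [Fintype.card_fin]
    push_cast
    rw [Finset.mul_sum]
  have hlab := sum_labeling f hf
  have hlab' : 2 * ∑ v, (f v : ℤ) = (3 * ∑ j, (L j : ℤ)) * (3 * ∑ j, (L j : ℤ) + 1) := by
    rw [← hcard]
    exact_mod_cast hlab
  have h1 := Finset.sum_le_sum (fun j (_ : j ∈ Finset.univ) => hcomp j)
  rw [Finset.sum_sub_distrib, htot, ← Finset.sum_mul] at h1
  rw [← hlab']
  linarith

/-- complementing a labeling -/
lemma compl_labeling {V : Type*} [Fintype V] (f : V → ℕ) (hf : IsLabeling f) :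
    IsLabeling (fun v => Fintype.card V + 1 - f v) := by
  have hr : ∀ v, 1 ≤ f v ∧ f v ≤ Fintype.card V := fun v => hf.mapsTo (Set.mem_univ v)
  refine ⟨fun v _ => ?_, fun v _ w _ h => ?_, fun x hx => ?_⟩
  · have := hr v
    simp only [Set.mem_Icc]; omega
  · apply hf.injOn (Set.mem_univ _) (Set.mem_univ _)
    have := hr v
    have := hr w
    dsimp only at h
    omega
  · obtain ⟨h1, h2⟩ := hx
    obtain ⟨v, -, hv⟩ := hf.surjOn (show Fintype.card V + 1 - x ∈ Set.Icc 1 (Fintype.card V) from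
      ⟨by omega, by omega⟩)
    exact ⟨v, Set.mem_univ _, by dsimp only; omega⟩

lemma cns_compl {k : ℕ} (L : Fin k → ℕ) (hL : ∀ j, 1 ≤ L j)
    (f : (Σ j : Fin k, Fin (3 * L j)) → ℕ) (hf : IsLabeling f) (v) :
    cns (cycles fun j => 3 * L j)
      (fun v => Fintype.card (Σ j : Fin k, Fin (3 * L j)) + 1 - f v) v
      + cns (cycles fun j => 3 * L j) f v
      = 3 * (Fintype.card (Σ j : Fin k, Fin (3 * L j)) + 1) := by
  obtain ⟨j, i⟩ := v
  obtain ⟨p, q, hp, hq⟩ := exists_nbrs i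
  have h3 : 3 ≤ 3 * L j := by have := hL j; omega
  rw [cns_eq (fun j => 3 * L j) _ j h3 p i q hp hq, cns_eq (fun j => 3 * L j) f j h3 p i q hp hq]
  have hr : ∀ v, 1 ≤ f v ∧ f v ≤ Fintype.card (Σ j : Fin k, Fin (3 * L j)) :=
    fun v => hf.mapsTo (Set.mem_univ v)
  have h1 := hr ⟨j, p⟩
  have h2 := hr ⟨j, i⟩
  have h4 := hr ⟨j, q⟩
  omega

lemma sum_big {k : ℕ} (L : Fin k → ℕ) :
    ∑ j, (if 7 ≤ L j then (L j : ℤ) + 1 else (L j : ℤ) - 1)
      = ∑ j, (L j : ℤ) + 2 * big L - k := by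
  have h : ∀ j, (if 7 ≤ L j then (L j : ℤ) + 1 else (L j : ℤ) - 1)
      = (L j : ℤ) + 2 * (if 7 ≤ L j then 1 else 0) - 1 := by
    intro j; split_ifs <;> ring
  rw [Finset.sum_congr rfl (fun j _ => h j), Finset.sum_sub_distrib, Finset.sum_add_distrib,
    ← Finset.mul_sum]
  simp [big, Finset.sum_boole]

/-- the admissible values for the doubled deviation of the minimal sum from the mean -/
def Adm {k : ℕ} (L : Fin k → ℕ) (g : ℕ) : Prop :=
  g = 0 ∨
  (g = 1 ∧ (∑ j, L j) % 2 = 0) ∨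
  (g = 2 ∧ (∑ j, L j) % 2 = 1 ∧ k < ∑ j, L j + 2 * big L) ∨
  (g = 3 ∧ (∑ j, L j) % 2 = 0 ∧ 2 * k < ∑ j, L j + 4 * big L) ∨
  (g = 4 ∧ (∑ j, L j) % 2 = 1 ∧ k < 2 * big L)

lemma lower_min {k : ℕ} (hk : 1 ≤ k) (L : Fin k → ℕ) (hL : ∀ j, 1 ≤ L j) (g : ℕ) (hg : Adm L g)
    (f : (Σ j : Fin k, Fin (3 * L j)) → ℕ) (hf : IsLabeling f) :
    ∃ v, 2 * cns (cycles fun j => 3 * L j) f v + g ≤ 3 * (3 * ∑ j, L j + 1) := by
  by_contra hcon
  push Not at hcon
  have hS : k ≤ ∑ j, L j := by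
    have h1 := Finset.sum_le_sum (fun j (_ : j ∈ (Finset.univ : Finset (Fin k))) => hL j)
    simpa using h1
  set S := ∑ j, L j with hSdef
  have hScast : ∑ j, (L j : ℤ) = (S : ℤ) := by rw [hSdef]; push_cast; rfl
  -- a uniform integer lower bound `b`
  have key : ∀ b r : ℤ, (∀ v, b ≤ cns (cycles fun j => 3 * L j) f v) →
      3 * (3 * (S : ℤ) + 1) - 2 * b = r → 2 * ((S : ℤ) + 2 * big L - k) ≤ S * r := by
    intro b r hb hr
    have h := lower_core L hL f hf b hb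
    rw [sum_big, hScast] at h
    rw [← hr]
    linarith
  rcases hg with rfl | ⟨rfl, h⟩ | ⟨rfl, h', h⟩ | ⟨rfl, h', h⟩ | ⟨rfl, h', h⟩
  · rcases Nat.even_or_odd' S with ⟨s, hs | hs⟩
    · have h1 := key ((3 * (3 * S + 1) + 1) / 2) (-1) (fun v => by
        have := hcon v; omega) (by omega)
      omega
    · have h1 := key ((3 * (3 * S + 1) + 2) / 2) (-2) (fun v => by
        have := hcon v; omega) (by omega)
      omega
  · have h1 := key ((3 * (3 * S + 1) + 1) / 2) (-1) (fun v => by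
      have := hcon v; omega) (by omega)
    omega
  · have h1 := key ((3 * (3 * S + 1)) / 2) 0 (fun v => by
      have := hcon v; omega) (by omega)
    omega
  · have h1 := key ((3 * (3 * S + 1) - 1) / 2) 1 (fun v => by
      have := hcon v; omega) (by omega)
    omega
  · have h1 := key ((3 * (3 * S + 1) - 2) / 2) 2 (fun v => by
      have := hcon v; omega) (by omega)
    omega

/-! ## The construction -/

def pp (m j : ℕ) : ℕ := if j ≤ m then j + m else j - m - 1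
def ss (m j : ℕ) : ℕ := if j ≤ m then 2 * m - 2 * j else 4 * m + 1 - 2 * j

lemma pp_lt {m j : ℕ} (h : j < 2 * m + 1) : pp m j < 2 * m + 1 := by
  unfold pp; split_ifs <;> omega
lemma ss_lt {m j : ℕ} (h : j < 2 * m + 1) : ss m j < 2 * m + 1 := by
  unfold ss; split_ifs <;> omega
lemma pp_inj {m j j' : ℕ} (h : j < 2 * m + 1) (h' : j' < 2 * m + 1) (e : pp m j = pp m j') :
    j = j' := by
  unfold pp at e; split_ifs at e <;> omega
lemma ss_inj {m j j' : ℕ} (h : j < 2 * m + 1) (h' : j' < 2 * m + 1) (e : ss m j = ss m j') :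
    j = j' := by
  unfold ss at e; split_ifs at e <;> omega
lemma pp_ss {m j : ℕ} (h : j < 2 * m + 1) : j + pp m j + ss m j = 3 * m := by
  unfold pp ss; split_ifs <;> omega

lemma block_lt {a u L K : ℕ} (ha : a < K) (hu : u < L) : a * L + u < K * L := by
  have h : (a + 1) * L ≤ K * L := Nat.mul_le_mul_right L ha
  rw [add_mul, one_mul] at h
  omega

lemma block_inj {a b u v L : ℕ} (hu : u < L) (hv : v < L) (h : a * L + u = b * L + v) :
    a = b ∧ u = v := by
  rcases lt_trichotomy a b with hab | rfl | hab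
  · have h1 := Nat.mul_le_mul_right L hab
    rw [Nat.succ_mul] at h1; omega
  · exact ⟨rfl, by omega⟩
  · have h1 := Nat.mul_le_mul_right L hab
    rw [Nat.succ_mul] at h1; omega

/-- the labeling of `(2m+1) C_{3L}` built from three sequences -/
def F (m L : ℕ) (wA wB wC : ℕ → ℕ) (j x : ℕ) : ℕ :=
  if x % 3 = 0 then 1 + (j * L + wA (x / 3))
  else if x % 3 = 1 then 1 + (2 * m + 1) * L + (pp m j * L + wB (x / 3))
  else 1 + 2 * ((2 * m + 1) * L) + (ss m j * L + wC (x / 3))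

lemma F_spec {m L d : ℕ} {wA wB wC : ℕ → ℕ} (h : Good L d wA wB wC) {j x : ℕ}
    (hj : j < 2 * m + 1) (hx : x < 3 * L) :
    (x % 3 = 0 ∧ F m L wA wB wC j x = 1 + (j * L + wA (x / 3)) ∧
      j * L + wA (x / 3) < (2 * m + 1) * L) ∨
    (x % 3 = 1 ∧ F m L wA wB wC j x = 1 + (2 * m + 1) * L + (pp m j * L + wB (x / 3)) ∧
      pp m j * L + wB (x / 3) < (2 * m + 1) * L) ∨
    (x % 3 = 2 ∧ F m L wA wB wC j x = 1 + 2 * ((2 * m + 1) * L) + (ss m j * L + wC (x / 3)) ∧
      ss m j * L + wC (x / 3) < (2 * m + 1) * L) := by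
  have hl : x / 3 < L := by omega
  unfold F
  rcases (by omega : x % 3 = 0 ∨ x % 3 = 1 ∨ x % 3 = 2) with h0 | h0 | h0
  · left; rw [if_pos h0]; exact ⟨h0, rfl, block_lt hj (h.ltA _ hl)⟩
  · right; left; rw [if_neg (by omega), if_pos h0]
    exact ⟨h0, rfl, block_lt (pp_lt hj) (h.ltB _ hl)⟩
  · right; right; rw [if_neg (by omega), if_neg (by omega)]
    exact ⟨h0, rfl, block_lt (ss_lt hj) (h.ltC _ hl)⟩

lemma F_inj {m L d : ℕ} {wA wB wC : ℕ → ℕ} (h : Good L d wA wB wC) {j x j' x' : ℕ}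
    (hj : j < 2 * m + 1) (hx : x < 3 * L) (hj' : j' < 2 * m + 1) (hx' : x' < 3 * L)
    (e : F m L wA wB wC j x = F m L wA wB wC j' x') : j = j' ∧ x = x' := by
  have hl : x / 3 < L := by omega
  have hl' : x' / 3 < L := by omega
  rcases F_spec h hj hx with ⟨r, e1, b1⟩ | ⟨r, e1, b1⟩ | ⟨r, e1, b1⟩ <;>
  rcases F_spec h hj' hx' with ⟨r', e2, b2⟩ | ⟨r', e2, b2⟩ | ⟨r', e2, b2⟩ <;>
  rw [e1, e2] at e <;> try (exfalso; omega)
  · obtain ⟨h1, h2⟩ := block_inj (h.ltA _ hl) (h.ltA _ hl')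
      (show j * L + wA (x / 3) = j' * L + wA (x' / 3) by omega)
    exact ⟨h1, by have := h.injA _ hl _ hl' h2; omega⟩
  · obtain ⟨h1, h2⟩ := block_inj (h.ltB _ hl) (h.ltB _ hl')
      (show pp m j * L + wB (x / 3) = pp m j' * L + wB (x' / 3) by omega)
    exact ⟨pp_inj hj hj' h1, by have := h.injB _ hl _ hl' h2; omega⟩
  · obtain ⟨h1, h2⟩ := block_inj (h.ltC _ hl) (h.ltC _ hl')
      (show ss m j * L + wC (x / 3) = ss m j' * L + wC (x' / 3) by omega)
    exact ⟨ss_inj hj hj' h1, by have := h.injC _ hl _ hl' h2; omega⟩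

lemma upper (m L : ℕ) (hL : 1 ≤ L) (d : ℕ) (wA wB wC : ℕ → ℕ) (h : Good L d wA wB wC) :
    ∃ f : (Σ _ : Fin (2 * m + 1), Fin (3 * L)) → ℕ, IsLabeling f ∧
      ∀ v, 3 * (3 * ((2 * m + 1) * L) + 1) ≤ 2 * cns (cycles fun _ => 3 * L) f v + d ∧
        2 * cns (cycles fun _ => 3 * L) f v ≤ 3 * (3 * ((2 * m + 1) * L) + 1) + d := by
  classical
  refine ⟨fun v => F m L wA wB wC v.1 v.2, ?_, ?_⟩
  · have hcard : Fintype.card (Σ _ : Fin (2 * m + 1), Fin (3 * L)) = 3 * ((2 * m + 1) * L) := by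
      rw [Fintype.card_sigma]
      simp only [Fintype.card_fin, Finset.sum_const, Finset.card_univ, smul_eq_mul]
      ring
    have hinj : Function.Injective
        (fun v : (Σ _ : Fin (2 * m + 1), Fin (3 * L)) => F m L wA wB wC v.1 v.2) := by
      rintro ⟨j, x⟩ ⟨j', x'⟩ e
      obtain ⟨h1, h2⟩ := F_inj h j.2 x.2 j'.2 x'.2 e
      have h1' : j = j' := Fin.ext h1
      have h2' : x = x' := Fin.ext h2
      rw [h1', h2']
    have hmaps : ∀ v : (Σ _ : Fin (2 * m + 1), Fin (3 * L)),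
        F m L wA wB wC v.1 v.2 ∈ Finset.Icc 1 (3 * ((2 * m + 1) * L)) := by
      rintro ⟨j, x⟩
      rw [Finset.mem_Icc]
      rcases F_spec h j.2 x.2 with ⟨r, e1, b1⟩ | ⟨r, e1, b1⟩ | ⟨r, e1, b1⟩ <;>
        dsimp only <;> rw [e1] <;> omega
    have himg : Finset.univ.image
        (fun v : (Σ _ : Fin (2 * m + 1), Fin (3 * L)) => F m L wA wB wC v.1 v.2)
        = Finset.Icc 1 (3 * ((2 * m + 1) * L)) := by
      apply Finset.eq_of_subset_of_card_le
      · intro y hy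
        rw [Finset.mem_image] at hy
        obtain ⟨v, -, rfl⟩ := hy
        exact hmaps v
      · rw [Finset.card_image_of_injective _ hinj, Finset.card_univ, hcard, Nat.card_Icc]
        omega
    unfold IsLabeling
    rw [hcard]
    refine ⟨fun v _ => by simpa using hmaps v, hinj.injOn, fun y hy => ?_⟩
    have hy' : y ∈ Finset.Icc 1 (3 * ((2 * m + 1) * L)) := by simpa using hy
    rw [← himg, Finset.mem_image] at hy'
    obtain ⟨v, -, hv⟩ := hy'
    exact ⟨v, Set.mem_univ _, hv⟩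
  · rintro ⟨j, i⟩
    obtain ⟨p, q, hp, hq⟩ := exists_nbrs i
    rw [cns_eq (fun _ => 3 * L) _ j (by omega) p i q hp hq]
    unfold nxt at hp hq
    have hp2 := p.2
    have hi2 := i.2
    have hq2 := q.2
    have hsum := pp_ss j.2
    have hmul : ((j : ℕ) + pp m j + ss m j) * L = 3 * m * L := by rw [hsum]
    have hmul' : (j : ℕ) * L + pp m j * L + ss m j * L = 3 * (m * L) := by
      rw [add_mul, add_mul] at hmul; rw [hmul]; ring
    have hkL : (2 * m + 1) * L = 2 * (m * L) + L := by ring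
    dsimp only
    rcases (by omega : (i : ℕ) % 3 = 0 ∨ (i : ℕ) % 3 = 1 ∨ (i : ℕ) % 3 = 2) with h0 | h0 | h0
    · have hs := h.s2 ((p : ℕ) / 3) (by omega) ((i : ℕ) / 3) (by omega)
      have hq3 : (q : ℕ) / 3 = (i : ℕ) / 3 := by omega
      unfold F
      rw [if_neg (by omega), if_neg (by omega), if_pos h0, if_neg (by omega), if_pos (by omega),
        hq3]
      omega
    · have hs := h.s0 ((i : ℕ) / 3) (by omega)
      have hp3 : (p : ℕ) / 3 = (i : ℕ) / 3 := by omega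
      have hq3 : (q : ℕ) / 3 = (i : ℕ) / 3 := by omega
      unfold F
      rw [if_pos (by omega), if_neg (by omega), if_pos h0, if_neg (by omega), if_neg (by omega),
        hp3, hq3]
      omega
    · have hs := h.s1 ((i : ℕ) / 3) (by omega) ((q : ℕ) / 3) (by omega)
      have hp3 : (p : ℕ) / 3 = (i : ℕ) / 3 := by omega
      unfold F
      rw [if_neg (by omega), if_pos (by omega), if_neg (by omega), if_neg (by omega),
        if_pos (by omega), hp3]
      omega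



/-! ## The construction for even `k` -/

def mb (m j : ℕ) : ℕ := if j < m then j + m else j - m
def hb (m j : ℕ) : ℕ := if j < m then m - 1 - j else 2 * m - 1 - j

/-- the labeling of `(2m) C_{3L}` built from two triples of sequences -/
def F2 (m L : ℕ) (A1 B1 C1 A2 B2 C2 : ℕ → ℕ) (j x : ℕ) : ℕ :=
  if x % 3 = 0 then 1 + (j * L + (if j < m then A1 (x / 3) else A2 (x / 3)))
  else if x % 3 = 1 then
    1 + (2 * m) * L + (mb m j * L + (if j < m then B1 (x / 3) else B2 (x / 3)))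
  else 1 + 2 * ((2 * m) * L) + (hb m j * (2 * L) + (if j < m then C1 (x / 3) else C2 (x / 3)))

lemma F2_spec {m L d : ℕ} {A1 B1 C1 A2 B2 C2 : ℕ → ℕ} (h1 : Half L d A1 B1 C1)
    (h2 : Half L d A2 B2 C2) {j x : ℕ} (hj : j < 2 * m) (hx : x < 3 * L) :
    (x % 3 = 0 ∧ F2 m L A1 B1 C1 A2 B2 C2 j x
        = 1 + (j * L + (if j < m then A1 (x / 3) else A2 (x / 3))) ∧
      j * L + (if j < m then A1 (x / 3) else A2 (x / 3)) < (2 * m) * L) ∨
    (x % 3 = 1 ∧ F2 m L A1 B1 C1 A2 B2 C2 j x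
        = 1 + (2 * m) * L + (mb m j * L + (if j < m then B1 (x / 3) else B2 (x / 3))) ∧
      mb m j * L + (if j < m then B1 (x / 3) else B2 (x / 3)) < (2 * m) * L) ∨
    (x % 3 = 2 ∧ F2 m L A1 B1 C1 A2 B2 C2 j x
        = 1 + 2 * ((2 * m) * L) + (hb m j * (2 * L) + (if j < m then C1 (x / 3) else C2 (x / 3))) ∧
      hb m j * (2 * L) + (if j < m then C1 (x / 3) else C2 (x / 3)) < (2 * m) * L) := by
  have hl : x / 3 < L := by omega
  unfold F2
  rcases (by omega : x % 3 = 0 ∨ x % 3 = 1 ∨ x % 3 = 2) with h0 | h0 | h0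
  · left; rw [if_pos h0]; refine ⟨h0, rfl, block_lt hj ?_⟩
    split_ifs
    · exact h1.ltA _ hl
    · exact h2.ltA _ hl
  · right; left; rw [if_neg (by omega), if_pos h0]
    refine ⟨h0, rfl, block_lt ?_ ?_⟩
    · unfold mb; split_ifs <;> omega
    · split_ifs
      · exact h1.ltB _ hl
      · exact h2.ltB _ hl
  · right; right; rw [if_neg (by omega), if_neg (by omega)]
    refine ⟨h0, rfl, ?_⟩
    have e : (2 * m) * L = m * (2 * L) := by ring
    rw [e]
    apply block_lt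
    · unfold hb; split_ifs <;> omega
    · split_ifs
      · exact h1.ltC _ hl
      · exact h2.ltC _ hl

lemma F2_inj {m L d : ℕ} {A1 B1 C1 A2 B2 C2 : ℕ → ℕ} (h1 : Half L d A1 B1 C1)
    (h2 : Half L d A2 B2 C2) (h12 : ∀ l < L, ∀ l' < L, C1 l ≠ C2 l') {j x j' x' : ℕ}
    (hj : j < 2 * m) (hx : x < 3 * L) (hj' : j' < 2 * m) (hx' : x' < 3 * L)
    (e : F2 m L A1 B1 C1 A2 B2 C2 j x = F2 m L A1 B1 C1 A2 B2 C2 j' x') : j = j' ∧ x = x' := by
  have hl : x / 3 < L := by omega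
  have hl' : x' / 3 < L := by omega
  rcases F2_spec h1 h2 hj hx with ⟨r, e1, b1⟩ | ⟨r, e1, b1⟩ | ⟨r, e1, b1⟩ <;>
  rcases F2_spec h1 h2 hj' hx' with ⟨r', e2, b2⟩ | ⟨r', e2, b2⟩ | ⟨r', e2, b2⟩ <;>
  rw [e1, e2] at e <;> try (exfalso; omega)
  · obtain ⟨g1, g2⟩ := block_inj (L := L)
      (by split_ifs; exacts [h1.ltA _ hl, h2.ltA _ hl])
      (by split_ifs; exacts [h1.ltA _ hl', h2.ltA _ hl'])
      (show j * L + (if j < m then A1 (x / 3) else A2 (x / 3))
        = j' * L + (if j' < m then A1 (x' / 3) else A2 (x' / 3)) by omega)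
    subst g1
    refine ⟨rfl, ?_⟩
    split_ifs at g2
    · have := h1.injA _ hl _ hl' g2; omega
    · have := h2.injA _ hl _ hl' g2; omega
  · obtain ⟨g1, g2⟩ := block_inj (L := L)
      (by split_ifs; exacts [h1.ltB _ hl, h2.ltB _ hl])
      (by split_ifs; exacts [h1.ltB _ hl', h2.ltB _ hl'])
      (show mb m j * L + (if j < m then B1 (x / 3) else B2 (x / 3))
        = mb m j' * L + (if j' < m then B1 (x' / 3) else B2 (x' / 3)) by omega)
    have g1' : j = j' := by unfold mb at g1; split_ifs at g1 <;> omega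
    subst g1'
    refine ⟨rfl, ?_⟩
    split_ifs at g2
    · have := h1.injB _ hl _ hl' g2; omega
    · have := h2.injB _ hl _ hl' g2; omega
  · obtain ⟨g1, g2⟩ := block_inj (L := 2 * L)
      (by split_ifs; exacts [h1.ltC _ hl, h2.ltC _ hl])
      (by split_ifs; exacts [h1.ltC _ hl', h2.ltC _ hl'])
      (show hb m j * (2 * L) + (if j < m then C1 (x / 3) else C2 (x / 3))
        = hb m j' * (2 * L) + (if j' < m then C1 (x' / 3) else C2 (x' / 3)) by omega)
    by_cases c : j < m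
    · by_cases c' : j' < m
      · rw [if_pos c, if_pos c'] at g2
        unfold hb at g1
        rw [if_pos c, if_pos c'] at g1
        have := h1.injC _ hl _ hl' g2
        omega
      · rw [if_pos c, if_neg c'] at g2
        exact absurd g2 (h12 _ hl _ hl')
    · by_cases c' : j' < m
      · rw [if_neg c, if_pos c'] at g2
        exact absurd g2.symm (h12 _ hl' _ hl)
      · rw [if_neg c, if_neg c'] at g2
        unfold hb at g1
        rw [if_neg c, if_neg c'] at g1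
        have := h2.injC _ hl _ hl' g2
        omega

lemma labeling_of {k L : ℕ} (F : ℕ → ℕ → ℕ)
    (hinj : ∀ j < k, ∀ x < 3 * L, ∀ j' < k, ∀ x' < 3 * L, F j x = F j' x' → j = j' ∧ x = x')
    (hmaps : ∀ j < k, ∀ x < 3 * L, 1 ≤ F j x ∧ F j x ≤ 3 * (k * L)) :
    IsLabeling (fun v : (Σ _ : Fin k, Fin (3 * L)) => F v.1 v.2) := by
  classical
  have hcard : Fintype.card (Σ _ : Fin k, Fin (3 * L)) = 3 * (k * L) := by
    rw [Fintype.card_sigma]
    simp only [Fintype.card_fin, Finset.sum_const, Finset.card_univ, smul_eq_mul]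
    ring
  have hinj' : Function.Injective
      (fun v : (Σ _ : Fin k, Fin (3 * L)) => F v.1 v.2) := by
    rintro ⟨j, x⟩ ⟨j', x'⟩ e
    obtain ⟨h1, h2⟩ := hinj j j.2 x x.2 j' j'.2 x' x'.2 e
    have h1' : j = j' := Fin.ext h1
    have h2' : x = x' := Fin.ext h2
    rw [h1', h2']
  have himg : Finset.univ.image
      (fun v : (Σ _ : Fin k, Fin (3 * L)) => F v.1 v.2)
      = Finset.Icc 1 (3 * (k * L)) := by
    apply Finset.eq_of_subset_of_card_le
    · intro y hy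
      rw [Finset.mem_image] at hy
      obtain ⟨v, -, rfl⟩ := hy
      exact Finset.mem_Icc.2 (hmaps v.1 v.1.2 v.2 v.2.2)
    · rw [Finset.card_image_of_injective _ hinj', Finset.card_univ, hcard, Nat.card_Icc]
      omega
  unfold IsLabeling
  rw [hcard]
  refine ⟨fun v _ => hmaps v.1 v.1.2 v.2 v.2.2, hinj'.injOn, fun y hy => ?_⟩
  have hy' : y ∈ Finset.Icc 1 (3 * (k * L)) := by simpa using hy
  rw [← himg, Finset.mem_image] at hy'
  obtain ⟨v, -, hv⟩ := hy'
  exact ⟨v, Set.mem_univ _, hv⟩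

lemma blocks {m j : ℕ} (L : ℕ) (hj : j < 2 * m) :
    j * L + mb m j * L + hb m j * (2 * L) + 2 * L = 3 * (m * L) := by
  unfold mb hb
  by_cases c : j < m
  · rw [if_pos c, if_pos c]
    obtain ⟨u, rfl⟩ : ∃ u, m = j + u + 1 := ⟨m - 1 - j, by omega⟩
    have : j + u + 1 - 1 - j = u := by omega
    rw [this]; ring
  · rw [if_neg c, if_neg c]
    obtain ⟨u, rfl⟩ : ∃ u, j = m + u := ⟨j - m, by omega⟩
    obtain ⟨w, rfl⟩ : ∃ w, m = u + w + 1 := ⟨m - u - 1, by omega⟩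
    have e1 : u + w + 1 + u - (u + w + 1) = u := by omega
    have e2 : 2 * (u + w + 1) - 1 - (u + w + 1 + u) = w := by omega
    rw [e1, e2]; ring

lemma upper2 (m L : ℕ) (hL : 1 ≤ L) (d : ℕ) (A1 B1 C1 A2 B2 C2 : ℕ → ℕ)
    (h1 : Half L d A1 B1 C1) (h2 : Half L d A2 B2 C2)
    (h12 : ∀ l < L, ∀ l' < L, C1 l ≠ C2 l') :
    ∃ f : (Σ _ : Fin (2 * m), Fin (3 * L)) → ℕ, IsLabeling f ∧
      ∀ v, 3 * (3 * ((2 * m) * L) + 1) ≤ 2 * cns (cycles fun _ => 3 * L) f v + d ∧
        2 * cns (cycles fun _ => 3 * L) f v ≤ 3 * (3 * ((2 * m) * L) + 1) + d := by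
  refine ⟨fun v => F2 m L A1 B1 C1 A2 B2 C2 v.1 v.2, ?_, ?_⟩
  · apply labeling_of
    · intro j hj x hx j' hj' x' hx' e
      exact F2_inj h1 h2 h12 hj hx hj' hx' e
    · intro j hj x hx
      rcases F2_spec h1 h2 hj hx with ⟨r, e1, b1⟩ | ⟨r, e1, b1⟩ | ⟨r, e1, b1⟩ <;>
        rw [e1] <;> omega
  · rintro ⟨j, i⟩
    obtain ⟨p, q, hp, hq⟩ := exists_nbrs i
    rw [cns_eq (fun _ => 3 * L) _ j (by omega) p i q hp hq]
    unfold nxt at hp hq
    have hj2 := j.2
    have hp2 := p.2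
    have hi2 := i.2
    have hq2 := q.2
    have hkL : (2 * m) * L = 2 * (m * L) := by ring
    have hblocks := blocks L hj2
    dsimp only
    rcases (by omega : (i : ℕ) % 3 = 0 ∨ (i : ℕ) % 3 = 1 ∨ (i : ℕ) % 3 = 2) with h0 | h0 | h0
    · have hs := h1.s2 ((p : ℕ) / 3) (by omega) ((i : ℕ) / 3) (by omega)
      have hs' := h2.s2 ((p : ℕ) / 3) (by omega) ((i : ℕ) / 3) (by omega)
      have hq3 : (q : ℕ) / 3 = (i : ℕ) / 3 := by omega
      unfold F2
      rw [if_neg (by omega : ¬ (p : ℕ) % 3 = 0), if_neg (by omega : ¬ (p : ℕ) % 3 = 1), if_pos h0,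
        if_neg (by omega : ¬ (q : ℕ) % 3 = 0), if_pos (by omega : (q : ℕ) % 3 = 1), hq3]
      split_ifs <;> omega
    · have hs := h1.s0 ((i : ℕ) / 3) (by omega)
      have hs' := h2.s0 ((i : ℕ) / 3) (by omega)
      have hp3 : (p : ℕ) / 3 = (i : ℕ) / 3 := by omega
      have hq3 : (q : ℕ) / 3 = (i : ℕ) / 3 := by omega
      unfold F2
      rw [if_pos (by omega : (p : ℕ) % 3 = 0), if_neg (by omega : ¬ (i : ℕ) % 3 = 0), if_pos h0,
        if_neg (by omega : ¬ (q : ℕ) % 3 = 0), if_neg (by omega : ¬ (q : ℕ) % 3 = 1), hp3, hq3]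
      split_ifs <;> omega
    · have hs := h1.s1 ((i : ℕ) / 3) (by omega) ((q : ℕ) / 3) (by omega)
      have hs' := h2.s1 ((i : ℕ) / 3) (by omega) ((q : ℕ) / 3) (by omega)
      have hp3 : (p : ℕ) / 3 = (i : ℕ) / 3 := by omega
      unfold F2
      rw [if_neg (by omega : ¬ (p : ℕ) % 3 = 0), if_pos (by omega : (p : ℕ) % 3 = 1),
        if_neg (by omega : ¬ (i : ℕ) % 3 = 0), if_neg (by omega : ¬ (i : ℕ) % 3 = 1),
        if_pos (by omega : (q : ℕ) % 3 = 0), hp3]
      split_ifs <;> omega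

/-! ## `k C_6` for even `k` -/

def prt (k : ℕ) (v : Σ _ : Fin k, Fin (3 * 2)) : Σ _ : Fin k, Fin (3 * 2) :=
  ⟨v.1, ⟨((v.2 : ℕ) + 3) % 6, Nat.mod_lt _ (by norm_num)⟩⟩

lemma prt_prt (k : ℕ) (v : Σ _ : Fin k, Fin (3 * 2)) : prt k (prt k v) = v := by
  obtain ⟨j, i⟩ := v
  simp only [prt, Sigma.mk.injEq, heq_eq_eq, true_and]
  apply Fin.ext
  have := i.2
  simp only
  omega

lemma lower_two (m : ℕ) (hm : 1 ≤ m) (f : (Σ _ : Fin (2 * m), Fin (3 * 2)) → ℕ)
    (hf : IsLabeling f) :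
    ∃ v, 2 * cns (cycles fun _ => 3 * 2) f v + 3 ≤ 3 * (3 * ((2 * m) * 2) + 1) := by
  by_contra hcon
  push Not at hcon
  have hn : Fintype.card (Σ _ : Fin (2 * m), Fin (3 * 2)) = 12 * m := by
    rw [Fintype.card_sigma]
    simp only [Fintype.card_fin, Finset.sum_const, Finset.card_univ, smul_eq_mul]
    ring
  have hr : ∀ v, 1 ≤ f v ∧ f v ≤ 12 * m := fun v => by
    have := hf.mapsTo (Set.mem_univ v)
    rw [hn] at this
    exact this
  have hinj : Function.Injective f := fun a b h => hf.injOn (Set.mem_univ _) (Set.mem_univ _) h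
  -- the triple sums
  have hsum : ∀ (j : Fin (2 * m)) (p i q : Fin (3 * 2)), nxt p i → nxt i q →
      18 * m + 1 ≤ f ⟨j, p⟩ + f ⟨j, i⟩ + f ⟨j, q⟩ := by
    intro j p i q hpi hiq
    have h1 := hcon ⟨j, i⟩
    rw [cns_eq (fun _ => 3 * 2) f j (by norm_num) p i q hpi hiq] at h1
    omega
  set T : Fin (2 * m) → ℕ := fun j => f ⟨j, 0⟩ + f ⟨j, 1⟩ + f ⟨j, 2⟩ + f ⟨j, 3⟩ + f ⟨j, 4⟩
    + f ⟨j, 5⟩ with hT
  have hne : ∀ (j : Fin (2 * m)) (a b : Fin (3 * 2)), a ≠ b → f ⟨j, a⟩ ≠ f ⟨j, b⟩ := by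
    intro j a b hab h
    have := hinj h
    simp only [Sigma.mk.injEq, heq_eq_eq, true_and] at this
    exact hab this
  have facts : ∀ j : Fin (2 * m), 36 * m + 3 ≤ T j ∧ (T j = 36 * m + 3 →
      (f ⟨j, 3⟩ = f ⟨j, 0⟩ + 1 ∨ f ⟨j, 0⟩ = f ⟨j, 3⟩ + 1) ∧
      (f ⟨j, 4⟩ = f ⟨j, 1⟩ + 1 ∨ f ⟨j, 1⟩ = f ⟨j, 4⟩ + 1) ∧
      (f ⟨j, 5⟩ = f ⟨j, 2⟩ + 1 ∨ f ⟨j, 2⟩ = f ⟨j, 5⟩ + 1)) := by
    intro j
    have a0 := hsum j 0 1 2 (Or.inl rfl) (Or.inl rfl)
    have a1 := hsum j 1 2 3 (Or.inl rfl) (Or.inl rfl)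
    have a2 := hsum j 2 3 4 (Or.inl rfl) (Or.inl rfl)
    have a3 := hsum j 3 4 5 (Or.inl rfl) (Or.inl rfl)
    have a4 := hsum j 4 5 0 (Or.inl rfl) (Or.inr ⟨rfl, rfl⟩)
    have a5 := hsum j 5 0 1 (Or.inr ⟨rfl, rfl⟩) (Or.inl rfl)
    have n0 := hne j 0 3 (by decide)
    have n1 := hne j 1 4 (by decide)
    have n2 := hne j 2 5 (by decide)
    simp only [hT]
    omega
  have htot : 2 * ∑ j, T j = 12 * m * (12 * m + 1) := by
    have h := sum_labeling f hf
    rw [hn, Fintype.sum_sigma] at h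
    rw [← h]
    congr 1
    apply Finset.sum_congr rfl
    intro j _
    exact (Fin.sum_univ_six (fun i : Fin 6 => f ⟨j, i⟩)).symm
  have hTeq : ∀ j, T j = 36 * m + 3 := by
    by_contra hc
    push Not at hc
    obtain ⟨j, hj⟩ := hc
    have h1 : ∑ _j : Fin (2 * m), (36 * m + 3) < ∑ j, T j :=
      Finset.sum_lt_sum (fun i _ => (facts i).1) ⟨j, Finset.mem_univ _,
        lt_of_le_of_ne (facts j).1 (Ne.symm hj)⟩
    simp only [Finset.sum_const, Finset.card_univ, Fintype.card_fin, smul_eq_mul] at h1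
    nlinarith
  have hp : ∀ v, f (prt (2 * m) v) = f v + 1 ∨ f v = f (prt (2 * m) v) + 1 := by
    rintro ⟨j, i⟩
    obtain ⟨b0, b1, b2⟩ := (facts j).2 (hTeq j)
    have e3 : prt (2 * m) ⟨j, 3⟩ = ⟨j, 0⟩ := prt_prt (2 * m) ⟨j, 0⟩
    have e4 : prt (2 * m) ⟨j, 4⟩ = ⟨j, 1⟩ := prt_prt (2 * m) ⟨j, 1⟩
    have e5 : prt (2 * m) ⟨j, 5⟩ = ⟨j, 2⟩ := prt_prt (2 * m) ⟨j, 2⟩
    fin_cases i
    · exact b0
    · exact b1
    · exact b2
    · change f (prt (2 * m) ⟨j, 3⟩) = f ⟨j, 3⟩ + 1 ∨ f ⟨j, 3⟩ = f (prt (2 * m) ⟨j, 3⟩) + 1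
      rw [e3]; exact b0.symm
    · change f (prt (2 * m) ⟨j, 4⟩) = f ⟨j, 4⟩ + 1 ∨ f ⟨j, 4⟩ = f (prt (2 * m) ⟨j, 4⟩) + 1
      rw [e4]; exact b1.symm
    · change f (prt (2 * m) ⟨j, 5⟩) = f ⟨j, 5⟩ + 1 ∨ f ⟨j, 5⟩ = f (prt (2 * m) ⟨j, 5⟩) + 1
      rw [e5]; exact b2.symm
  have hodd : ∀ i : ℕ, ∀ v, f v = 2 * i + 1 → f (prt (2 * m) v) = 2 * i + 2 := by
    intro i
    induction i with
    | zero =>
      intro v hv
      rcases hp v with h | h
      · omega
      · have := hr (prt (2 * m) v); omega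
    | succ i ih =>
      intro v hv
      rcases hp v with h | h
      · omega
      · exfalso
        obtain ⟨w, -, hw⟩ := hf.surjOn (show 2 * i + 1 ∈ Set.Icc 1
          (Fintype.card (Σ _ : Fin (2 * m), Fin (3 * 2))) from by
            rw [hn]
            have := hr v
            exact ⟨by omega, by omega⟩)
        have h1 := ih w hw
        have h2 : prt (2 * m) w = prt (2 * m) v := hinj (by omega)
        have h3 : w = v := by rw [← prt_prt _ w, h2, prt_prt]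
        rw [h3] at hw
        omega
  have hmod : ∀ v, (f v + f (prt (2 * m) v)) % 4 = 3 := by
    intro v
    rcases Nat.even_or_odd' (f v) with ⟨c, hc | hc⟩
    · have hv := hr v
      obtain ⟨i, hi⟩ : ∃ i, c = i + 1 := ⟨c - 1, by omega⟩
      obtain ⟨w, -, hw⟩ := hf.surjOn (show 2 * i + 1 ∈ Set.Icc 1
        (Fintype.card (Σ _ : Fin (2 * m), Fin (3 * 2))) from by
          rw [hn]; exact ⟨by omega, by omega⟩)
      have h1 := hodd i w hw
      have h2 : prt (2 * m) w = v := hinj (by omega)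
      have h3 : prt (2 * m) v = w := by rw [← h2, prt_prt]
      rw [h3, hw]
      omega
    · have h1 := hodd c v hc
      omega
  have j0 : Fin (2 * m) := ⟨0, by omega⟩
  have c0 := hmod ⟨j0, 0⟩
  have c1 := hmod ⟨j0, 1⟩
  have c2 := hmod ⟨j0, 2⟩
  have e0 : prt (2 * m) ⟨j0, 0⟩ = ⟨j0, 3⟩ := rfl
  have e1 : prt (2 * m) ⟨j0, 1⟩ = ⟨j0, 4⟩ := rfl
  have e2 : prt (2 * m) ⟨j0, 2⟩ = ⟨j0, 5⟩ := rfl
  rw [e0] at c0
  rw [e1] at c1
  rw [e2] at c2
  have hTj := hTeq j0
  simp only [hT] at hTj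
  omega

/-! ## The optima -/

section optima

variable {V : Type*} [Fintype V] (G : SimpleGraph V)

lemma bddAbove_range (f : V → ℕ) : BddAbove (Set.range (cns G f)) :=
  (Set.finite_range _).bddAbove

lemma le_maxSum (f : V → ℕ) (v : V) : cns G f v ≤ maxSum G f :=
  le_csSup (bddAbove_range G f) ⟨v, rfl⟩

lemma maxSum_mem [Nonempty V] (f : V → ℕ) : ∃ v, cns G f v = maxSum G f :=
  Nat.sSup_mem (Set.range_nonempty _) (bddAbove_range G f)

lemma minSum_le (f : V → ℕ) (v : V) : minSum G f ≤ cns G f v :=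
  Nat.sInf_le ⟨v, rfl⟩

lemma minSum_mem [Nonempty V] (f : V → ℕ) : ∃ v, cns G f v = minSum G f :=
  Nat.sInf_mem (Set.range_nonempty _)

/-- If every labeling has a closed sum `≤ (X-g)/2` and one `≥ (X+g)/2`, and some labeling has all
its closed sums in `[(X-d)/2, (X+d)/2]`, then the three parameters are bounded accordingly. -/
lemma optima [Nonempty V] (X g d : ℕ)
    (hlow : ∀ f : V → ℕ, IsLabeling f →
      (∃ v, 2 * cns G f v + g ≤ X) ∧ (∃ v, X + g ≤ 2 * cns G f v))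
    (f₀ : V → ℕ) (hf₀ : IsLabeling f₀)
    (h₀ : ∀ v, X ≤ 2 * cns G f₀ v + d ∧ 2 * cns G f₀ v ≤ X + d) :
    (X + g ≤ 2 * NS G ∧ 2 * NS G ≤ X + d) ∧
      (2 * NSminus G + g ≤ X ∧ X ≤ 2 * NSminus G + d) ∧ (g ≤ NSsp G ∧ NSsp G ≤ d) := by
  have hM : ∀ f : V → ℕ, IsLabeling f → X + g ≤ 2 * maxSum G f := by
    intro f hf
    obtain ⟨v, hv⟩ := (hlow f hf).2
    have := le_maxSum G f v
    omega
  have hm : ∀ f : V → ℕ, IsLabeling f → 2 * minSum G f + g ≤ X := by
    intro f hf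
    obtain ⟨v, hv⟩ := (hlow f hf).1
    have := minSum_le G f v
    omega
  have hM₀ : 2 * maxSum G f₀ ≤ X + d := by
    obtain ⟨v, hv⟩ := maxSum_mem G f₀
    have := (h₀ v).2
    omega
  have hm₀ : X ≤ 2 * minSum G f₀ + d := by
    obtain ⟨v, hv⟩ := minSum_mem G f₀
    have := (h₀ v).1
    omega
  refine ⟨?_, ?_, ?_⟩
  · have h1 : NS G ≤ maxSum G f₀ := Nat.sInf_le ⟨f₀, hf₀, rfl⟩
    obtain ⟨f, hf, he⟩ : NS G ∈ {x | ∃ f : V → ℕ, IsLabeling f ∧ maxSum G f = x} :=
      Nat.sInf_mem ⟨_, f₀, hf₀, rfl⟩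
    have h2 := hM f hf
    omega
  · have hbdd : BddAbove {x | ∃ f : V → ℕ, IsLabeling f ∧ minSum G f = x} := by
      refine ⟨X, ?_⟩
      rintro x ⟨f, hf, rfl⟩
      have := hm f hf
      omega
    have h1 : minSum G f₀ ≤ NSminus G := le_csSup hbdd ⟨f₀, hf₀, rfl⟩
    obtain ⟨f, hf, he⟩ : NSminus G ∈ {x | ∃ f : V → ℕ, IsLabeling f ∧ minSum G f = x} :=
      Nat.sSup_mem ⟨_, f₀, hf₀, rfl⟩ hbdd
    have h2 := hm f hf
    omega
  · have h1 : NSsp G ≤ maxSum G f₀ - minSum G f₀ := Nat.sInf_le ⟨f₀, hf₀, rfl⟩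
    obtain ⟨f, hf, he⟩ : NSsp G ∈ {x | ∃ f : V → ℕ, IsLabeling f ∧ maxSum G f - minSum G f = x} :=
      Nat.sInf_mem ⟨_, f₀, hf₀, rfl⟩
    have h2 := hM f hf
    have h3 := hm f hf
    omega

end optima

lemma both {k : ℕ} (hk : 1 ≤ k) (L : Fin k → ℕ) (hL : ∀ j, 1 ≤ L j) (g : ℕ) (hg : Adm L g)
    (f : (Σ j : Fin k, Fin (3 * L j)) → ℕ) (hf : IsLabeling f) :
    (∃ v, 2 * cns (cycles fun j => 3 * L j) f v + g ≤ 3 * (3 * ∑ j, L j + 1)) ∧
    (∃ v, 3 * (3 * ∑ j, L j + 1) + g ≤ 2 * cns (cycles fun j => 3 * L j) f v) := by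
  refine ⟨lower_min hk L hL g hg f hf, ?_⟩
  obtain ⟨v, hv⟩ := lower_min hk L hL g hg _ (compl_labeling f hf)
  refine ⟨v, ?_⟩
  have h := cns_compl L hL f hf v
  have hcard : Fintype.card (Σ j : Fin k, Fin (3 * L j)) = 3 * ∑ j, L j := by
    rw [Fintype.card_sigma]
    simp only [Fintype.card_fin]
    rw [Finset.mul_sum]
  rw [hcard] at h hv
  omega

lemma adm_const (k L : ℕ) (hk : k % 2 = 1) (hL : 1 ≤ L) : Adm (fun _ : Fin k => L) (gap L) := by
  have hS : ∑ _j : Fin k, L = k * L := by simp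
  have hb : big (fun _ : Fin k => L) = if 7 ≤ L then k else 0 := by
    unfold big
    split_ifs with h
    · simp [h]
    · simp [h]
  have hmod : (k * L) % 2 = L % 2 := by
    rw [Nat.mul_mod, hk, one_mul, Nat.mod_mod]
  unfold Adm
  rw [hS, hb, hmod]
  unfold gap
  have hkL : 2 ≤ L → 2 * k ≤ k * L := fun h => by rw [mul_comm 2 k]; exact Nat.mul_le_mul_left k h
  have hkL3 : 3 ≤ L → 3 * k ≤ k * L := fun h => by rw [mul_comm 3 k]; exact Nat.mul_le_mul_left k h
  split_ifs <;> omega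

lemma card_const (k L : ℕ) :
    Fintype.card (Σ _ : Fin k, Fin (3 * L)) = 3 * (k * L) := by
  rw [Fintype.card_sigma]
  simp only [Fintype.card_fin, Finset.sum_const, Finset.card_univ, smul_eq_mul]
  ring

lemma odd_case (k L : ℕ) (hk : Odd k) (hL : 1 ≤ L) :
    2 * NS (cycles (fun _ : Fin k => 3 * L)) = 3 * (k * (3 * L) + 1) + gap L ∧
    2 * NSminus (cycles (fun _ : Fin k => 3 * L)) + gap L = 3 * (k * (3 * L) + 1) ∧
    NSsp (cycles (fun _ : Fin k => 3 * L)) = gap L := by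
  obtain ⟨m, rfl⟩ := hk
  obtain ⟨wA, wB, wC, hg⟩ := exists_good L hL
  obtain ⟨f₀, hf₀, h₀⟩ := upper m L hL (gap L) wA wB wC hg
  have : Nonempty (Σ _ : Fin (2 * m + 1), Fin (3 * L)) := ⟨⟨⟨0, by omega⟩, ⟨0, by omega⟩⟩⟩
  have hX : 3 * ((2 * m + 1) * (3 * L) + 1) = 3 * (3 * ((2 * m + 1) * L) + 1) := by ring
  rw [hX]
  have h := optima (cycles (fun _ : Fin (2 * m + 1) => 3 * L)) _ (gap L) (gap L) (fun f hf => by
    have h := both (by omega) (fun _ : Fin (2 * m + 1) => L) (fun _ => hL) (gap L)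
      (adm_const _ _ (by omega) hL) f hf
    simpa using h) f₀ hf₀ h₀
  omega

/-- lower bound for the spread for even `k` -/
def gapE' (L : ℕ) : ℕ := if L = 1 then 1 else 3

lemma even_low (m L : ℕ) (hm : 1 ≤ m) (hL : 1 ≤ L) (f : (Σ _ : Fin (2 * m), Fin (3 * L)) → ℕ)
    (hf : IsLabeling f) :
    ∃ v, 2 * cns (cycles fun _ => 3 * L) f v + gapE' L ≤ 3 * (3 * ((2 * m) * L) + 1) := by
  by_cases h2 : L = 2
  · subst h2
    obtain ⟨v, hv⟩ := lower_two m hm f hf
    exact ⟨v, by simpa [gapE'] using hv⟩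
  · have hS : ∑ _j : Fin (2 * m), L = 2 * m * L := by simp
    have hb : 0 ≤ big (fun _ : Fin (2 * m) => L) := Nat.zero_le _
    have hadm : Adm (fun _ : Fin (2 * m) => L) (gapE' L) := by
      unfold Adm gapE'
      rw [hS]
      have e : 2 * m * L = 2 * (m * L) := by ring
      rw [e]
      split_ifs with h1
      · right; left; exact ⟨rfl, by omega⟩
      · right; right; right; left
        have h3 : m * 3 ≤ m * L := Nat.mul_le_mul_left m (by omega)
        exact ⟨rfl, by omega, by omega⟩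
    obtain ⟨v, hv⟩ := lower_min (by omega) (fun _ : Fin (2 * m) => L) (fun _ => hL) _ hadm f hf
    rw [hS] at hv
    exact ⟨v, hv⟩

lemma even_both (m L : ℕ) (hm : 1 ≤ m) (hL : 1 ≤ L) (f : (Σ _ : Fin (2 * m), Fin (3 * L)) → ℕ)
    (hf : IsLabeling f) :
    (∃ v, 2 * cns (cycles fun _ => 3 * L) f v + gapE' L ≤ 3 * (3 * ((2 * m) * L) + 1)) ∧
    (∃ v, 3 * (3 * ((2 * m) * L) + 1) + gapE' L ≤ 2 * cns (cycles fun _ => 3 * L) f v) := by
  refine ⟨even_low m L hm hL f hf, ?_⟩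
  obtain ⟨v, hv⟩ := even_low m L hm hL _ (compl_labeling f hf)
  refine ⟨v, ?_⟩
  have h := cns_compl (fun _ : Fin (2 * m) => L) (fun _ => hL) f hf v
  rw [card_const] at h hv
  omega

lemma even_case (k L : ℕ) (hk : Even k) (hk1 : 1 ≤ k) (hL : 1 ≤ L) :
    (3 * (k * (3 * L) + 1) + gapE' L ≤ 2 * NS (cycles (fun _ : Fin k => 3 * L)) ∧
      2 * NS (cycles (fun _ : Fin k => 3 * L)) ≤ 3 * (k * (3 * L) + 1) + gapE L) ∧
    (2 * NSminus (cycles (fun _ : Fin k => 3 * L)) + gapE' L ≤ 3 * (k * (3 * L) + 1) ∧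
      3 * (k * (3 * L) + 1) ≤ 2 * NSminus (cycles (fun _ : Fin k => 3 * L)) + gapE L) ∧
    (gapE' L ≤ NSsp (cycles (fun _ : Fin k => 3 * L)) ∧
      NSsp (cycles (fun _ : Fin k => 3 * L)) ≤ gapE L) := by
  obtain ⟨m, hm⟩ := hk
  obtain rfl : k = 2 * m := by omega
  obtain ⟨A1, B1, C1, A2, B2, C2, h1, h2, h12⟩ := exists_half L hL
  obtain ⟨f₀, hf₀, h₀⟩ := upper2 m L hL (gapE L) A1 B1 C1 A2 B2 C2 h1 h2 h12
  have : Nonempty (Σ _ : Fin (2 * m), Fin (3 * L)) := ⟨⟨⟨0, by omega⟩, ⟨0, by omega⟩⟩⟩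
  have hX : 3 * ((2 * m) * (3 * L) + 1) = 3 * (3 * ((2 * m) * L) + 1) := by ring
  rw [hX]
  exact optima (cycles (fun _ : Fin (2 * m) => 3 * L)) _ (gapE' L) (gapE L)
    (fun f hf => even_both m L (by omega) hL f hf) f₀ hf₀ h₀

end Pool.Agent.NbrSum
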