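import Mathlib

/-!
# Closed neighbourhood sums of labelings: definitions
-/

namespace Pool.Agent.NbrSum

/-- The sum of the labels on the closed neighbourhood `N[v]`. -/
noncomputable def cns {V : Type*} [Fintype V] (G : SimpleGraph V) (f : V → ℕ) (v : V) : ℕ :=
  open Classical in ∑ u ∈ Finset.univ.filter (fun u => u = v ∨ G.Adj v u), f u

/-- `f` is a bijection from the vertex set onto `{1, …, n}`, `n` the number of vertices. -/
def IsLabeling {V : Type*} [Fintype V] (f : V → ℕ) : Prop :=
  Set.BijOn f Set.univ (Set.Icc 1 (Fintype.card V))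

/-- `M(f)` -/
noncomputable def maxSum {V : Type*} [Fintype V] (G : SimpleGraph V) (f : V → ℕ) : ℕ :=
  sSup (Set.range (cns G f))

/-- `m(f)` -/
noncomputable def minSum {V : Type*} [Fintype V] (G : SimpleGraph V) (f : V → ℕ) : ℕ :=
  sInf (Set.range (cns G f))

/-- `NS[G]` -/
noncomputable def NS {V : Type*} [Fintype V] (G : SimpleGraph V) : ℕ :=
  sInf {x | ∃ f : V → ℕ, IsLabeling f ∧ maxSum G f = x}

/-- `NS⁻[G]` -/
noncomputable def NSminus {V : Type*} [Fintype V] (G : SimpleGraph V) : ℕ :=
  sSup {x | ∃ f : V → ℕ, IsLabeling f ∧ minSum G f = x}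

/-- `NS^{sp}[G]` -/
noncomputable def NSsp {V : Type*} [Fintype V] (G : SimpleGraph V) : ℕ :=
  sInf {x | ∃ f : V → ℕ, IsLabeling f ∧ maxSum G f - minSum G f = x}

/-- The disjoint union of `k` cycles, the `j`-th one of length `len j`
(meant for `len j ≥ 3`, where this is a 2-regular graph). -/
def cycles {k : ℕ} (len : Fin k → ℕ) : SimpleGraph (Σ j : Fin k, Fin (len j)) :=
  SimpleGraph.fromRel (fun u v => u.1 = v.1 ∧
    ((v.2 : ℕ) = (u.2 : ℕ) + 1 ∨ ((u.2 : ℕ) + 1 = len u.1 ∧ (v.2 : ℕ) = 0)))

/-- The common value of the spread and of twice the deviations from the mean for an odd number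
of copies of the cycle of length `3L`. -/
def gap (L : ℕ) : ℕ :=
  if L = 1 then 0 else if L = 2 then 1 else if L = 3 ∨ L = 5 then 2 else if L % 2 = 0 then 3 else 4

/-- For cycle lengths `3 * L j`: the number of cycles of length at least `21`. -/
def big {k : ℕ} (L : Fin k → ℕ) : ℕ := (Finset.univ.filter fun j => 7 ≤ L j).card

end Pool.Agent.NbrSum
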