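import Pool.Agent.NbrSum.Core

/-!
# Closed neighbourhood sums of 2-regular graphs without cycle lengths divisible by `3`
-/

namespace Pool.Agent.NbrSum.NonThree

open Pool.Agent.NbrSum Finset

/-! ## Windows of a periodic sequence -/

lemma window (G : ℕ → ℤ) (a b : ℤ) (h : ∀ x, a ≤ G x + G (x + 1) + G (x + 2) ∧
    G x + G (x + 1) + G (x + 2) ≤ b) (u q : ℕ) :
    q * a ≤ ∑ i ∈ range (3 * q), G (u + i) ∧ ∑ i ∈ range (3 * q), G (u + i) ≤ q * b := by
  induction q with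
  | zero => simp
  | succ q ih =>
    have e : 3 * (q + 1) = 3 * q + 1 + 1 + 1 := by ring
    rw [e, Finset.sum_range_succ, Finset.sum_range_succ, Finset.sum_range_succ]
    have h1 := h (u + 3 * q)
    have e1 : u + 3 * q + 1 = u + (3 * q + 1) := by ring
    have e2 : u + 3 * q + 2 = u + (3 * q + 1 + 1) := by ring
    rw [e1, e2] at h1
    push_cast
    constructor <;> nlinarith [ih.1, ih.2, h1.1, h1.2]

lemma period_sum (G : ℕ → ℤ) (t : ℕ) (hG : ∀ x, G (x + t) = G x) (u : ℕ) :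
    ∑ i ∈ range t, G (u + i) = ∑ i ∈ range t, G i := by
  induction u with
  | zero => simp
  | succ u ih =>
    rw [← ih]
    have h1 := Finset.sum_range_succ (fun i => G (u + i)) t
    have h2 := Finset.sum_range_succ' (fun i => G (u + i)) t
    have h3 : ∑ i ∈ range t, G (u + 1 + i) = ∑ i ∈ range t, G (u + (i + 1)) :=
      Finset.sum_congr rfl (fun i _ => by rw [show u + 1 + i = u + (i + 1) by ring])
    rw [h3]
    have h4 := hG u
    simp only [add_zero] at h2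
    linarith

/-- The window inequalities for one cycle. -/
lemma comp_ineq (G : ℕ → ℤ) (t : ℕ) (h3 : ¬ 3 ∣ t) (hG : ∀ x, G (x + t) = G x) (a b : ℤ)
    (h : ∀ x, a ≤ G x + G (x + 1) + G (x + 2) ∧ G x + G (x + 1) + G (x + 2) ≤ b) (u : ℕ) :
    |3 * G u - b| ≤ 2 * (t * b - 3 * ∑ i ∈ range t, G i) ∧
      |3 * G u - a| ≤ 2 * (3 * ∑ i ∈ range t, G i - t * a) ∧
      9 * G u ≤ 3 * b + (2 * t - 1) * (b - a) ∧ 3 * a - (2 * t - 1) * (b - a) ≤ 9 * G u := by
  have hab : a ≤ b := (h 0).1.trans (h 0).2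
  set T := ∑ i ∈ range t, G i with hT
  have hsum : ∀ v, ∑ i ∈ range t, G (v + i) = T := fun v => period_sum G t hG v
  have hsum2 : ∀ v, ∑ i ∈ range (t + t), G (v + i) = 2 * T := by
    intro v
    rw [Finset.sum_range_add, hsum v]
    have : ∑ i ∈ range t, G (v + (t + i)) = T := by
      rw [← hsum (v + t)]
      exact Finset.sum_congr rfl (fun i _ => by rw [add_assoc])
    rw [this]; ring
  have hG2 : G (u + (t + t)) = G u := by rw [← add_assoc, hG, hG]
  have ht : t % 3 = 1 ∨ t % 3 = 2 := by omega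
  rcases ht with ht | ht
  · obtain ⟨r, hr⟩ : ∃ r, t = 3 * r + 1 := ⟨t / 3, by omega⟩
    have w1 := window G a b h (u + 1) r
    have w2 := window G a b h u (2 * r + 1)
    have s1 : ∑ i ∈ range (3 * r), G (u + 1 + i) = T - G u := by
      have e := Finset.sum_range_succ' (fun i => G (u + i)) (3 * r)
      rw [← hr, hsum u] at e
      rw [e]
      simp only [add_zero, add_sub_cancel_right]
      exact Finset.sum_congr rfl (fun i _ => by rw [show u + 1 + i = u + (i + 1) by ring])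
    have s2 : ∑ i ∈ range (3 * (2 * r + 1)), G (u + i) = 2 * T + G u := by
      rw [show 3 * (2 * r + 1) = (t + t) + 1 by omega, Finset.sum_range_succ, hsum2, hG2]
    rw [s1] at w1
    rw [s2] at w2
    have htz : (t : ℤ) = 3 * r + 1 := by rw [hr]; push_cast; ring
    push_cast at w2
    rw [htz]
    obtain ⟨w11, w12⟩ := w1
    obtain ⟨w21, w22⟩ := w2
    have hrs : 0 ≤ (r : ℤ) * (b - a) := mul_nonneg (by positivity) (by linarith)
    refine ⟨abs_le.2 ⟨?_, ?_⟩, abs_le.2 ⟨?_, ?_⟩, ?_, ?_⟩ <;> nlinarith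
  · obtain ⟨r, hr⟩ : ∃ r, t = 3 * r + 2 := ⟨t / 3, by omega⟩
    have w1 := window G a b h u (r + 1)
    have w2 := window G a b h (u + 1) (2 * r + 1)
    have s1 : ∑ i ∈ range (3 * (r + 1)), G (u + i) = T + G u := by
      rw [show 3 * (r + 1) = t + 1 by omega, Finset.sum_range_succ, hsum, hG]
    have s2 : ∑ i ∈ range (3 * (2 * r + 1)), G (u + 1 + i) = 2 * T - G u := by
      have e := Finset.sum_range_succ' (fun i => G (u + i)) (3 * (2 * r + 1))
      rw [show 3 * (2 * r + 1) + 1 = t + t by omega, hsum2 u] at e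
      rw [e]
      simp only [add_zero, add_sub_cancel_right]
      exact Finset.sum_congr rfl (fun i _ => by rw [show u + 1 + i = u + (i + 1) by ring])
    rw [s1] at w1
    rw [s2] at w2
    have htz : (t : ℤ) = 3 * r + 2 := by rw [hr]; push_cast; ring
    push_cast at w1 w2
    rw [htz]
    obtain ⟨w11, w12⟩ := w1
    obtain ⟨w21, w22⟩ := w2
    have hrs : 0 ≤ (r : ℤ) * (b - a) := mul_nonneg (by positivity) (by linarith)
    refine ⟨abs_le.2 ⟨?_, ?_⟩, abs_le.2 ⟨?_, ?_⟩, ?_, ?_⟩ <;> nlinarith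

lemma sum_abs (n : ℕ) (M : ℤ) : 3 * ((n ^ 2 / 4 : ℕ) : ℤ) ≤ ∑ y ∈ Icc 1 n, |3 * (y : ℤ) - M| := by
  induction n using Nat.twoStepInduction generalizing M with
  | zero => simp
  | one => simp
  | more n ih _ =>
    have e : Icc 1 (n + 2) = insert 1 (insert (n + 2) ((Icc 1 n).map (addRightEmbedding 1))) := by
      ext x
      simp only [Finset.mem_Icc, Finset.mem_insert, Finset.mem_map, addRightEmbedding_apply]
      constructor
      · rintro ⟨h1, h2⟩
        rcases Nat.lt_or_ge 1 x with h | h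
        · rcases Nat.lt_or_ge x (n + 2) with h' | h'
          · exact Or.inr (Or.inr ⟨x - 1, by omega, by omega⟩)
          · exact Or.inr (Or.inl (by omega))
        · exact Or.inl (by omega)
      · rintro (h | h | ⟨y, hy, rfl⟩) <;> omega
    rw [e, Finset.sum_insert, Finset.sum_insert, Finset.sum_map]
    · have h1 := ih (M - 3)
      have h2 : ∑ y ∈ Icc 1 n, |3 * ((addRightEmbedding 1 y : ℕ) : ℤ) - M|
          = ∑ y ∈ Icc 1 n, |3 * (y : ℤ) - (M - 3)| := by
        apply Finset.sum_congr rfl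
        intro y _
        congr 1
        simp only [addRightEmbedding_apply]
        push_cast; ring
      rw [h2]
      have h3 : (n + 2) ^ 2 / 4 = n ^ 2 / 4 + (n + 1) := by
        rw [show (n + 2) ^ 2 = n ^ 2 + (n + 1) * 4 by ring, Nat.add_mul_div_right _ _ (by norm_num)]
      rw [h3]
      push_cast
      push_cast at h1
      have h4 := neg_abs_le (3 - M)
      have h5 := le_abs_self (3 * ((n : ℤ) + 2) - M)
      linarith
    · simp only [Finset.mem_map, Finset.mem_Icc, addRightEmbedding_apply, not_exists]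
      intro y hy
      omega
    · simp only [Finset.mem_insert, Finset.mem_map, Finset.mem_Icc, addRightEmbedding_apply,
        not_or, not_exists]
      exact ⟨by omega, fun y hy => by omega⟩

/-! ## Labelings -/

lemma nxt_mod {t : ℕ} (ht : 0 < t) (x : ℕ) :
    nxt (⟨x % t, Nat.mod_lt _ ht⟩ : Fin t) ⟨(x + 1) % t, Nat.mod_lt _ ht⟩ := by
  unfold nxt
  have h1 : (x + 1) % t = (x % t + 1) % t := by rw [Nat.mod_add_mod]
  have h2 := Nat.mod_lt x ht
  dsimp only
  rcases Nat.lt_or_ge (x % t + 1) t with h | h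
  · left
    rw [h1, Nat.mod_eq_of_lt h]
  · right
    have h4 : x % t + 1 = t := by omega
    exact ⟨h4, by rw [h1, h4, Nat.mod_self]⟩

lemma cycle_facts {k : ℕ} (len : Fin k → ℕ) (hlen : ∀ j, 3 ≤ len j) (h3 : ∀ j, ¬ 3 ∣ len j)
    (f : (Σ j : Fin k, Fin (len j)) → ℕ) (M m : ℕ)
    (hM : ∀ v, cns (cycles len) f v ≤ M) (hm : ∀ v, m ≤ cns (cycles len) f v)
    (j : Fin k) (i : Fin (len j)) :
    |3 * (f ⟨j, i⟩ : ℤ) - M| ≤ 2 * (len j * M - 3 * ∑ x : Fin (len j), (f ⟨j, x⟩ : ℤ)) ∧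
      |3 * (f ⟨j, i⟩ : ℤ) - m| ≤ 2 * (3 * ∑ x : Fin (len j), (f ⟨j, x⟩ : ℤ) - len j * m) ∧
      9 * (f ⟨j, i⟩ : ℤ) ≤ 3 * M + (2 * len j - 1) * (M - m) ∧
      3 * (m : ℤ) - (2 * len j - 1) * (M - m) ≤ 9 * (f ⟨j, i⟩ : ℤ) := by
  have ht : 0 < len j := by have := hlen j; omega
  set G : ℕ → ℤ := fun x => (f ⟨j, ⟨x % len j, Nat.mod_lt _ ht⟩⟩ : ℤ) with hG
  have hper : ∀ x, G (x + len j) = G x := by
    intro x
    simp only [hG, Nat.add_mod_right]
  have hwin : ∀ x, (m : ℤ) ≤ G x + G (x + 1) + G (x + 2) ∧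
      G x + G (x + 1) + G (x + 2) ≤ (M : ℤ) := by
    intro x
    have h1 := cns_eq len f j (hlen j) _ _ _ (nxt_mod ht x) (nxt_mod ht (x + 1))
    have h2 := hM ⟨j, ⟨(x + 1) % len j, Nat.mod_lt _ ht⟩⟩
    have h4 := hm ⟨j, ⟨(x + 1) % len j, Nat.mod_lt _ ht⟩⟩
    rw [h1] at h2 h4
    simp only [hG]
    constructor
    · exact_mod_cast h4
    · exact_mod_cast h2
  have hsum : ∑ x ∈ range (len j), G x = ∑ x : Fin (len j), (f ⟨j, x⟩ : ℤ) := by
    rw [Finset.sum_range]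
    apply Finset.sum_congr rfl
    intro x _
    have : (⟨(x : ℕ) % len j, Nat.mod_lt _ ht⟩ : Fin (len j)) = x :=
      Fin.ext (Nat.mod_eq_of_lt x.2)
    simp only [hG, this]
  have hval : G i = (f ⟨j, i⟩ : ℤ) := by
    have : (⟨(i : ℕ) % len j, Nat.mod_lt _ ht⟩ : Fin (len j)) = i :=
      Fin.ext (Nat.mod_eq_of_lt i.2)
    simp only [hG, this]
  have h := comp_ineq G (len j) (h3 j) hper m M hwin i
  rw [hsum, hval] at h
  exact h

lemma sum_abs_labeling {V : Type*} [Fintype V] (f : V → ℕ) (hf : IsLabeling f) (M : ℤ) :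
    3 * ((Fintype.card V ^ 2 / 4 : ℕ) : ℤ) ≤ ∑ v, |3 * (f v : ℤ) - M| := by
  classical
  have him : Finset.univ.image f = Finset.Icc 1 (Fintype.card V) := by
    ext x
    simp only [Finset.mem_image, Finset.mem_univ, true_and, Finset.mem_Icc]
    have h := hf.image_eq
    have : x ∈ f '' Set.univ ↔ x ∈ Set.Icc 1 (Fintype.card V) := by rw [h]
    simpa using this
  have h := sum_abs (Fintype.card V) M
  rw [← him, Finset.sum_image] at h
  · exact h
  · intro a _ b _ hab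
    exact hf.injOn (Set.mem_univ _) (Set.mem_univ _) hab

lemma main {k : ℕ} (len : Fin k → ℕ) (T : ℕ) (hlen : ∀ j, 3 ≤ len j ∧ len j ≤ T)
    (h3 : ∀ j, ¬ 3 ∣ len j) (n : ℕ) (hn : n = ∑ j, len j) (hn1 : 1 ≤ n)
    (f : (Σ j : Fin k, Fin (len j)) → ℕ) (hf : IsLabeling f) (M m : ℕ)
    (hM : ∀ v, cns (cycles len) f v ≤ M) (hm : ∀ v, m ≤ cns (cycles len) f v) :
    3 * ((n ^ 2 / 4 : ℕ) : ℤ) ≤ T * (n * (2 * M - 3 * (n + 1))) ∧
      3 * ((n ^ 2 / 4 : ℕ) : ℤ) ≤ T * (n * (3 * (n + 1) - 2 * m)) ∧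
      9 * ((n : ℤ) - 1) ≤ (4 * T + 1) * (M - m) := by
  have hcard : Fintype.card (Σ j : Fin k, Fin (len j)) = n := by
    rw [Fintype.card_sigma, hn]
    simp only [Fintype.card_fin]
  have hlab := sum_labeling f hf
  rw [hcard] at hlab
  have hlab' : 2 * ∑ v, (f v : ℤ) = (n : ℤ) * (n + 1) := by exact_mod_cast hlab
  rw [Fintype.sum_sigma] at hlab'
  have hfacts := cycle_facts len (fun j => (hlen j).1) h3 f M m hM hm
  have hnz : (n : ℤ) = ∑ j, (len j : ℤ) := by rw [hn]; push_cast; rfl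
  refine ⟨?_, ?_, ?_⟩
  · have h1 := sum_abs_labeling f hf M
    rw [hcard, Fintype.sum_sigma] at h1
    have h2 : ∀ j : Fin k, ∑ i : Fin (len j), |3 * (f ⟨j, i⟩ : ℤ) - M|
        ≤ T * (2 * (len j * M - 3 * ∑ x : Fin (len j), (f ⟨j, x⟩ : ℤ))) := by
      intro j
      have h4 := Finset.sum_le_sum (fun i (_ : i ∈ (Finset.univ : Finset (Fin (len j)))) =>
        (hfacts j i).1)
      rw [Finset.sum_const, Finset.card_univ, Fintype.card_fin, nsmul_eq_mul] at h4
      have h5 : 0 ≤ 2 * (len j * M - 3 * ∑ x : Fin (len j), (f ⟨j, x⟩ : ℤ)) :=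
        (abs_nonneg _).trans (hfacts j ⟨0, by have := (hlen j).1; omega⟩).1
      have h6 : (len j : ℤ) ≤ T := by exact_mod_cast (hlen j).2
      exact h4.trans (mul_le_mul_of_nonneg_right h6 h5)
    have h7 := h1.trans (Finset.sum_le_sum (fun j _ => h2 j))
    rw [← Finset.mul_sum, ← Finset.mul_sum, Finset.sum_sub_distrib, ← Finset.sum_mul,
      ← Finset.mul_sum, ← hnz] at h7
    refine h7.trans (le_of_eq ?_)
    linear_combination (-3 * (T : ℤ)) * hlab'
  · have h1 := sum_abs_labeling f hf m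
    rw [hcard, Fintype.sum_sigma] at h1
    have h2 : ∀ j : Fin k, ∑ i : Fin (len j), |3 * (f ⟨j, i⟩ : ℤ) - m|
        ≤ T * (2 * (3 * ∑ x : Fin (len j), (f ⟨j, x⟩ : ℤ) - len j * m)) := by
      intro j
      have h4 := Finset.sum_le_sum (fun i (_ : i ∈ (Finset.univ : Finset (Fin (len j)))) =>
        (hfacts j i).2.1)
      rw [Finset.sum_const, Finset.card_univ, Fintype.card_fin, nsmul_eq_mul] at h4
      have h5 : 0 ≤ 2 * (3 * ∑ x : Fin (len j), (f ⟨j, x⟩ : ℤ) - len j * m) :=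
        (abs_nonneg _).trans (hfacts j ⟨0, by have := (hlen j).1; omega⟩).2.1
      have h6 : (len j : ℤ) ≤ T := by exact_mod_cast (hlen j).2
      exact h4.trans (mul_le_mul_of_nonneg_right h6 h5)
    have h7 := h1.trans (Finset.sum_le_sum (fun j _ => h2 j))
    rw [← Finset.mul_sum, ← Finset.mul_sum, Finset.sum_sub_distrib, ← Finset.sum_mul,
      ← Finset.mul_sum, ← hnz] at h7
    refine h7.trans (le_of_eq ?_)
    linear_combination (3 * (T : ℤ)) * hlab'
  · obtain ⟨⟨j, i⟩, -, hv⟩ := hf.surjOn (show n ∈ Set.Icc 1 (Fintype.card _) from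
      ⟨hn1, by rw [hcard]⟩)
    obtain ⟨⟨j', i'⟩, -, hw⟩ := hf.surjOn (show 1 ∈ Set.Icc 1 (Fintype.card _) from
      ⟨le_rfl, by rw [hcard]; exact hn1⟩)
    have h1 := (hfacts j i).2.2.1
    have h2 := (hfacts j' i').2.2.2
    rw [hv] at h1
    rw [hw] at h2
    have h4 : (len j : ℤ) ≤ T := by exact_mod_cast (hlen j).2
    have h5 : (len j' : ℤ) ≤ T := by exact_mod_cast (hlen j').2
    have h6 : (0 : ℤ) ≤ (M : ℤ) - m := by
      have := (hm ⟨j, i⟩).trans (hM ⟨j, i⟩)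
      have : (m : ℤ) ≤ M := by exact_mod_cast this
      linarith
    have h7 := mul_le_mul_of_nonneg_right h4 h6
    have h8 := mul_le_mul_of_nonneg_right h5 h6
    push_cast at h2
    linarith

/-! ## The construction -/

/-- a sawtooth labeling (by `0, …, t-1`) of the cycle of length `t`, `3 ∤ t` -/
def w (t x : ℕ) : ℕ :=
  if x % 3 = 0 then x / 3 + x / 3 / 2
  else if x % 3 + t % 3 = 3 then (x / 3 + t / 3 + 1) + (x / 3 + t / 3 + 1) / 2
  else t / 3 * 3 - 1 - 3 * (x / 3)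

lemma w_spec (t x : ℕ) :
    (x % 3 = 0 ∧ w t x = x / 3 + x / 3 / 2) ∨
    (x % 3 ≠ 0 ∧ x % 3 + t % 3 = 3 ∧ w t x = (x / 3 + t / 3 + 1) + (x / 3 + t / 3 + 1) / 2) ∨
    (x % 3 ≠ 0 ∧ x % 3 + t % 3 ≠ 3 ∧ w t x = t / 3 * 3 - 1 - 3 * (x / 3)) := by
  unfold w
  by_cases h : x % 3 = 0
  · left; exact ⟨h, by rw [if_pos h]⟩
  · right
    by_cases h2 : x % 3 + t % 3 = 3
    · left; exact ⟨h, h2, by rw [if_neg h, if_pos h2]⟩
    · right; exact ⟨h, h2, by rw [if_neg h, if_neg h2]⟩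

lemma w_lt (t x : ℕ) (ht : ¬ 3 ∣ t) (hx : x < t) : w t x < t := by
  rcases w_spec t x with h | h | h <;> omega

lemma w_inj (t x y : ℕ) (ht : ¬ 3 ∣ t) (hx : x < t) (hy : y < t) (h : w t x = w t y) :
    x = y := by
  have ht' : t % 3 = 1 ∨ t % 3 = 2 := by omega
  rcases w_spec t x with h1 | h1 | h1 <;> rcases w_spec t y with h2 | h2 | h2 <;>
    rcases ht' with ht' | ht' <;> omega

set_option maxHeartbeats 4000000 in
lemma w_sum (t : ℕ) (ht : ¬ 3 ∣ t) (h3 : 3 ≤ t) (p i q : Fin t) (hp : nxt p i) (hq : nxt i q) :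
    ((3 * t ≤ 2 * (w t p + w t i + w t q) + 7 ∧ 2 * (w t p + w t i + w t q) ≤ 3 * t + 1) ∧
      ((p : ℕ) % 3 = 1 ∨ (i : ℕ) % 3 = 1 ∨ (q : ℕ) % 3 = 1) ∧
      ¬ ((p : ℕ) % 3 = 1 ∧ (i : ℕ) % 3 = 1 ∧ (q : ℕ) % 3 = 1)) ∨
    ((3 * t ≤ 2 * (w t p + w t i + w t q) + 4 ∧ 2 * (w t p + w t i + w t q) + 2 ≤ 3 * t) ∧
      (p : ℕ) % 3 ≠ 1 ∧ (i : ℕ) % 3 ≠ 1 ∧ (q : ℕ) % 3 ≠ 1) := by
  have ht' : t % 3 = 1 ∨ t % 3 = 2 := by omega
  have hp' := p.2
  have hi' := i.2
  have hq' := q.2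
  unfold nxt at hp hq
  rcases ht' with ht' | ht' <;> rcases hp with hp | hp <;> rcases hq with hq | hq <;>
    rcases w_spec t p with h1 | h1 | h1 <;> rcases w_spec t i with h2 | h2 | h2 <;>
      rcases w_spec t q with h4 | h4 | h4 <;> omega


lemma labeling_of' {k t : ℕ} (F : ℕ → ℕ → ℕ)
    (hinj : ∀ j < k, ∀ x < t, ∀ j' < k, ∀ x' < t, F j x = F j' x' → j = j' ∧ x = x')
    (hmaps : ∀ j < k, ∀ x < t, 1 ≤ F j x ∧ F j x ≤ k * t) :
    IsLabeling (fun v : (Σ _ : Fin k, Fin t) => F v.1 v.2) := by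
  classical
  have hcard : Fintype.card (Σ _ : Fin k, Fin t) = k * t := by
    rw [Fintype.card_sigma]
    simp only [Fintype.card_fin, Finset.sum_const, Finset.card_univ, smul_eq_mul]
  have hinj' : Function.Injective (fun v : (Σ _ : Fin k, Fin t) => F v.1 v.2) := by
    rintro ⟨j, x⟩ ⟨j', x'⟩ e
    obtain ⟨h1, h2⟩ := hinj j j.2 x x.2 j' j'.2 x' x'.2 e
    have h1' : j = j' := Fin.ext h1
    have h2' : x = x' := Fin.ext h2
    rw [h1', h2']
  have himg : Finset.univ.image (fun v : (Σ _ : Fin k, Fin t) => F v.1 v.2)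
      = Finset.Icc 1 (k * t) := by
    apply Finset.eq_of_subset_of_card_le
    · intro y hy
      rw [Finset.mem_image] at hy
      obtain ⟨v, -, rfl⟩ := hy
      exact Finset.mem_Icc.2 (hmaps v.1 v.1.2 v.2 v.2.2)
    · rw [Finset.card_image_of_injective _ hinj', Finset.card_univ, hcard, Nat.card_Icc]
      omega
  unfold IsLabeling
  rw [hcard]
  refine ⟨fun v _ => hmaps v.1 v.1.2 v.2 v.2.2, hinj'.injOn, fun y hy => ?_⟩
  have hy' : y ∈ Finset.Icc 1 (k * t) := by simpa using hy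
  rw [← himg, Finset.mem_image] at hy'
  obtain ⟨v, -, hv⟩ := hy'
  exact ⟨v, Set.mem_univ _, hv⟩

/-- the offset of the `j`-th copy at position `x` -/
def off (k j x : ℕ) : ℕ := if x % 3 = 1 then k - 1 - j else j

lemma off_spec (k j x : ℕ) (hj : j < k) :
    (x % 3 = 1 ∧ off k j x + j + 1 = k) ∨ (x % 3 ≠ 1 ∧ off k j x = j) := by
  unfold off; split_ifs with h
  · left; exact ⟨h, by omega⟩
  · right; exact ⟨h, rfl⟩

lemma upper (k t : ℕ) (ht : ¬ 3 ∣ t) (h3 : 3 ≤ t) :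
    ∃ f : (Σ _ : Fin k, Fin t) → ℕ, IsLabeling f ∧
      ∀ v, 3 * (k * t + 1) + 1 ≤ 2 * cns (cycles fun _ => t) f v + 5 * k ∧
        2 * cns (cycles fun _ => t) f v + 1 ≤ 3 * (k * t + 1) + 5 * k := by
  refine ⟨fun v => 1 + (w t v.2 * k + off k v.1 v.2), ?_, ?_⟩
  · apply labeling_of' (fun j x => 1 + (w t x * k + off k j x))
    · intro j hj x hx j' hj' x' hx' e
      have o1 := off_spec k j x hj
      have o2 := off_spec k j' x' hj'
      obtain ⟨e1, e2⟩ := block_inj (by omega : off k j x < k) (by omega : off k j' x' < k)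
        (by omega : w t x * k + off k j x = w t x' * k + off k j' x')
      have e3 := w_inj t x x' ht hx hx' e1
      subst e3
      exact ⟨by omega, rfl⟩
    · intro j hj x hx
      have o1 := off_spec k j x hj
      have h1 := block_lt (w_lt t x ht hx) (by omega : off k j x < k)
      rw [mul_comm t k] at h1
      omega
  · rintro ⟨j, i⟩
    obtain ⟨p, q, hp, hq⟩ := exists_nbrs i
    rw [cns_eq (fun _ => t) _ j h3 p i q hp hq]
    dsimp only
    have hj := j.2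
    have o1 := off_spec k j p hj
    have o2 := off_spec k j i hj
    have o3 := off_spec k j q hj
    have hw := w_sum t ht h3 p i q hp hq
    have hkt : k * (3 * t) = 3 * (k * t) := by ring
    have hsum : ∀ a b c : ℕ, k * (2 * (a + b + c)) = 2 * (a * k) + 2 * (b * k) + 2 * (c * k) := by
      intro a b c; ring
    rcases hw with ⟨⟨h1, h2⟩, hc⟩ | ⟨⟨h1, h2⟩, hc⟩
    · have m1 := Nat.mul_le_mul_left k h1
      have m2 := Nat.mul_le_mul_left k h2
      rw [mul_add, hsum, hkt] at m1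
      rw [hsum, mul_add, hkt, mul_one] at m2
      omega
    · have m1 := Nat.mul_le_mul_left k h1
      have m2 := Nat.mul_le_mul_left k h2
      rw [mul_add, hsum, hkt] at m1
      rw [mul_add, hsum, hkt] at m2
      omega

/-! ## The parameters -/

lemma exists_labeling (V : Type*) [Fintype V] : ∃ f : V → ℕ, IsLabeling f := by
  classical
  let e := Fintype.equivFin V
  refine ⟨fun v => (e v : ℕ) + 1, fun v _ => ?_, fun v _ u _ h => ?_, fun x hx => ?_⟩
  · have := (e v).2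
    simp only [Set.mem_Icc]; omega
  · have h' : (e v : ℕ) = (e u : ℕ) := by dsimp only at h; omega
    exact e.injective (Fin.ext h')
  · obtain ⟨h1, h2⟩ := hx
    exact ⟨e.symm ⟨x - 1, by omega⟩, Set.mem_univ _, by simp; omega⟩

lemma lower {k : ℕ} (len : Fin k → ℕ) (T : ℕ) (hlen : ∀ j, 3 ≤ len j ∧ len j ≤ T)
    (h3 : ∀ j, ¬ 3 ∣ len j) (n : ℕ) (hn : n = ∑ j, len j) (hn1 : 1 ≤ n) :
    3 * (n ^ 2 / 4) + T * (n * (3 * (n + 1))) ≤ T * (n * (2 * NS (cycles len))) ∧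
      3 * (n ^ 2 / 4) + T * (n * (2 * NSminus (cycles len))) ≤ T * (n * (3 * (n + 1))) ∧
      9 * (n - 1) ≤ (4 * T + 1) * NSsp (cycles len) := by
  have hcard : Fintype.card (Σ j : Fin k, Fin (len j)) = n := by
    rw [Fintype.card_sigma, hn]
    simp only [Fintype.card_fin]
  have hne : Nonempty (Σ j : Fin k, Fin (len j)) :=
    Fintype.card_pos_iff.1 (by rw [hcard]; exact hn1)
  have hT : 1 ≤ T := by
    obtain ⟨⟨j, _⟩⟩ := hne
    have := hlen j
    omega
  have hmain := fun f hf => main len T hlen h3 n hn hn1 f hf (maxSum (cycles len) f)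
    (minSum (cycles len) f) (le_maxSum _ f) (minSum_le _ f)
  obtain ⟨f₀, hf₀⟩ := exists_labeling (Σ j : Fin k, Fin (len j))
  refine ⟨?_, ?_, ?_⟩
  · obtain ⟨f, hf, he⟩ : NS (cycles len) ∈
        {x | ∃ f : (Σ j : Fin k, Fin (len j)) → ℕ, IsLabeling f ∧ maxSum (cycles len) f = x} :=
      Nat.sInf_mem ⟨_, f₀, hf₀, rfl⟩
    have h := (hmain f hf).1
    rw [he] at h
    zify
    push_cast at h
    linarith
  · have hbdd : BddAbove
        {x | ∃ f : (Σ j : Fin k, Fin (len j)) → ℕ, IsLabeling f ∧ minSum (cycles len) f = x} := by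
      refine ⟨3 * (n + 1), ?_⟩
      rintro x ⟨f, hf, rfl⟩
      have h := (hmain f hf).2.1
      by_contra hc
      push Not at hc
      have h1 : (3 * ((n : ℤ) + 1) - 2 * (minSum (cycles len) f : ℤ)) < 0 := by
        have : (3 * ((n : ℤ) + 1)) < (minSum (cycles len) f : ℤ) := by exact_mod_cast hc
        linarith
      have h2 : (0 : ℤ) < T := by exact_mod_cast hT
      have h4 : (0 : ℤ) < n := by exact_mod_cast hn1
      have h5 := mul_neg_of_pos_of_neg h2 (mul_neg_of_pos_of_neg h4 h1)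
      have h6 : (0 : ℤ) ≤ 3 * ((n ^ 2 / 4 : ℕ) : ℤ) := by positivity
      linarith
    obtain ⟨f, hf, he⟩ : NSminus (cycles len) ∈
        {x | ∃ f : (Σ j : Fin k, Fin (len j)) → ℕ, IsLabeling f ∧ minSum (cycles len) f = x} :=
      Nat.sSup_mem ⟨_, f₀, hf₀, rfl⟩ hbdd
    have h := (hmain f hf).2.1
    rw [he] at h
    zify
    push_cast at h
    linarith
  · obtain ⟨f, hf, he⟩ : NSsp (cycles len) ∈
        {x | ∃ f : (Σ j : Fin k, Fin (len j)) → ℕ, IsLabeling f ∧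
          maxSum (cycles len) f - minSum (cycles len) f = x} :=
      Nat.sInf_mem ⟨_, f₀, hf₀, rfl⟩
    have h := (hmain f hf).2.2
    have hle : minSum (cycles len) f ≤ maxSum (cycles len) f := by
      obtain ⟨v⟩ := hne
      exact (minSum_le _ f v).trans (le_maxSum _ f v)
    rw [← he]
    zify [hn1, hle]
    exact h

lemma upper_params (k t : ℕ) (hk : 1 ≤ k) (ht : ¬ 3 ∣ t) (h3 : 3 ≤ t) :
    2 * NS (cycles (fun _ : Fin k => t)) + 1 ≤ 3 * (k * t + 1) + 5 * k ∧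
      3 * (k * t + 1) + 1 ≤ 2 * NSminus (cycles (fun _ : Fin k => t)) + 5 * k ∧
      NSsp (cycles (fun _ : Fin k => t)) + 1 ≤ 5 * k := by
  have hne : Nonempty (Σ _ : Fin k, Fin t) := ⟨⟨⟨0, hk⟩, ⟨0, by omega⟩⟩⟩
  obtain ⟨f, hf, h⟩ := upper k t ht h3
  have hM : 2 * maxSum (cycles (fun _ : Fin k => t)) f + 1 ≤ 3 * (k * t + 1) + 5 * k := by
    obtain ⟨v, hv⟩ := maxSum_mem (cycles (fun _ : Fin k => t)) f
    have := (h v).2
    omega
  have hm : 3 * (k * t + 1) + 1 ≤ 2 * minSum (cycles (fun _ : Fin k => t)) f + 5 * k := by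
    obtain ⟨v, hv⟩ := minSum_mem (cycles (fun _ : Fin k => t)) f
    have := (h v).1
    omega
  refine ⟨?_, ?_, ?_⟩
  · have h1 : NS (cycles (fun _ : Fin k => t)) ≤ maxSum (cycles (fun _ : Fin k => t)) f :=
      Nat.sInf_le ⟨f, hf, rfl⟩
    omega
  · have hbdd : BddAbove {x | ∃ f : (Σ _ : Fin k, Fin t) → ℕ, IsLabeling f ∧
        minSum (cycles (fun _ : Fin k => t)) f = x} := by
      refine ⟨3 * (k * t), ?_⟩
      rintro x ⟨g, hg, rfl⟩
      obtain ⟨⟨j, i⟩⟩ := hne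
      obtain ⟨p, q, hp, hq⟩ := exists_nbrs i
      have h1 := minSum_le (cycles (fun _ : Fin k => t)) g ⟨j, i⟩
      rw [cns_eq (fun _ => t) _ j h3 p i q hp hq] at h1
      have hcard : Fintype.card (Σ _ : Fin k, Fin t) = k * t := by
        rw [Fintype.card_sigma]
        simp only [Fintype.card_fin, Finset.sum_const, Finset.card_univ, smul_eq_mul]
      have hr : ∀ v, 1 ≤ g v ∧ g v ≤ Fintype.card (Σ _ : Fin k, Fin t) :=
        fun v => hg.mapsTo (Set.mem_univ v)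
      rw [hcard] at hr
      have h2 := hr ⟨j, p⟩
      have h4 := hr ⟨j, i⟩
      have h5 := hr ⟨j, q⟩
      omega
    have h1 : minSum (cycles (fun _ : Fin k => t)) f ≤ NSminus (cycles (fun _ : Fin k => t)) :=
      le_csSup hbdd ⟨f, hf, rfl⟩
    omega
  · have h1 : NSsp (cycles (fun _ : Fin k => t)) ≤
        maxSum (cycles (fun _ : Fin k => t)) f - minSum (cycles (fun _ : Fin k => t)) f :=
      Nat.sInf_le ⟨f, hf, rfl⟩
    omega

end Pool.Agent.NbrSum.NonThree
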